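import Pool.Graph.R_pool_sql_team_seeded_707910d6.T2H19.GR.Stm
import Pool.Graph.R_seed8.H373R2.T4.DivB

/-! Package ADM2 of the random models of gcd recursions: `(x + 1) (x + 2 m + 1)` is admissible. -/

set_option autoImplicit false

namespace Pool.Agent.H531.GC

open Pool.Agent.T2H19.GR Finset

namespace Adm2

/-- one residue class -/
lemma card_class_le_one (l c : ℕ) (hl : 1 ≤ l) :
    ((range l).filter (fun x => l ∣ x + c)).card ≤ 1 := by
  rw [Finset.card_le_one]
  intro x hx y hy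
  rw [mem_filter, mem_range] at hx hy
  have h1 : x + c ≡ y + c [MOD l] :=
    ((Nat.modEq_zero_iff_dvd.2 hx.2).trans (Nat.modEq_zero_iff_dvd.2 hy.2).symm)
  have h2 : x ≡ y [MOD l] := Nat.ModEq.add_right_cancel' c h1
  exact Nat.ModEq.eq_of_lt_of_lt h2 hx.1 hy.1

lemma roots (m l : ℕ) (hl : l.Prime) :
    ((range l).filter (fun x => l ∣ hm m x)).card ≤ 2 := by
  have h1 : (range l).filter (fun x => l ∣ hm m x) ⊆
      (range l).filter (fun x => l ∣ x + 1) ∪ (range l).filter (fun x => l ∣ x + (2 * m + 1)) := by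
    intro x hx
    rw [mem_filter] at hx
    rw [mem_union, mem_filter, mem_filter]
    rcases (hl.dvd_mul).1 hx.2 with h | h
    · exact Or.inl ⟨hx.1, h⟩
    · exact Or.inr ⟨hx.1, by rwa [← add_assoc]⟩
  refine (card_le_card h1).trans ((card_union_le _ _).trans ?_)
  have h2 := card_class_le_one l 1 hl.one_lt.le
  have h3 := card_class_le_one l (2 * m + 1) hl.one_lt.le
  omega

lemma ne (m l : ℕ) (hl : l.Prime) : ∃ x, ¬ l ∣ hm m x := by
  rcases Nat.lt_or_ge l 3 with h | h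
  · have h2 : l = 2 := by
      have := hl.two_le
      omega
    subst h2
    refine ⟨0, fun h3 => ?_⟩
    unfold hm at h3
    rw [Nat.zero_add, one_mul, Nat.zero_add] at h3
    omega
  · by_contra hcon
    push Not at hcon
    have h1 := roots m l hl
    rw [Finset.filter_true_of_mem (fun x _ => hcon x), card_range] at h1
    omega

/-- the number of `x < d` with `d₁ ∣ x + 1` and `d₂ ∣ x + 2 m + 1`, `d = d₁ d₂` -/
lemma card_pair (m d₁ d₂ : ℕ) (hm0 : 1 ≤ m) (h1 : 0 < d₁) (h2 : 0 < d₂) :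
    ((range (d₁ * d₂)).filter (fun x => d₁ ∣ x + 1 ∧ d₂ ∣ x + (2 * m + 1))).card ≤ 2 * m := by
  classical
  rcases Finset.eq_empty_or_nonempty
    ((range (d₁ * d₂)).filter (fun x => d₁ ∣ x + 1 ∧ d₂ ∣ x + (2 * m + 1))) with he | ⟨x₀, hx₀⟩
  · rw [he, card_empty]; omega
  · rw [mem_filter] at hx₀
    have hg : Nat.gcd d₁ d₂ ∣ 2 * m := by
      have g1 : Nat.gcd d₁ d₂ ∣ x₀ + 1 := (Nat.gcd_dvd_left _ _).trans hx₀.2.1
      have g2 : Nat.gcd d₁ d₂ ∣ x₀ + 1 + 2 * m := by
        have := (Nat.gcd_dvd_right d₁ d₂).trans hx₀.2.2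
        rwa [show x₀ + (2 * m + 1) = x₀ + 1 + 2 * m by ring] at this
      exact (Nat.dvd_add_right g1).1 g2
    have hgle : Nat.gcd d₁ d₂ ≤ 2 * m := Nat.le_of_dvd (by omega) hg
    refine le_trans ?_ hgle
    have hL : 0 < Nat.lcm d₁ d₂ := Nat.lcm_pos h1 h2
    rw [← card_range (Nat.gcd d₁ d₂)]
    refine Finset.card_le_card_of_injOn (fun x => x / Nat.lcm d₁ d₂) ?_ ?_
    · intro x hx
      have hx' := mem_filter.1 (mem_coe.1 hx)
      have hx1 := mem_range.1 hx'.1
      rw [mem_coe, mem_range]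
      apply Nat.div_lt_of_lt_mul
      rw [mul_comm, Nat.gcd_mul_lcm]
      exact hx1
    · intro x hx y hy hxy
      have hx' := (mem_filter.1 (mem_coe.1 hx)).2
      have hy' := (mem_filter.1 (mem_coe.1 hy)).2
      have e1 : x ≡ y [MOD d₁] := Nat.ModEq.add_right_cancel' 1
        ((Nat.modEq_zero_iff_dvd.2 hx'.1).trans (Nat.modEq_zero_iff_dvd.2 hy'.1).symm)
      have e2 : x ≡ y [MOD d₂] := Nat.ModEq.add_right_cancel' (2 * m + 1)
        ((Nat.modEq_zero_iff_dvd.2 hx'.2).trans (Nat.modEq_zero_iff_dvd.2 hy'.2).symm)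
      have e3 : x ≡ y [MOD Nat.lcm d₁ d₂] := by
        rw [Nat.modEq_iff_dvd] at e1 e2 ⊢
        have := Int.coe_lcm_dvd e1 e2
        simpa [Int.lcm] using this
      have e4 : x / Nat.lcm d₁ d₂ = y / Nat.lcm d₁ d₂ := hxy
      have e5 : x % Nat.lcm d₁ d₂ = y % Nat.lcm d₁ d₂ := e3
      have f1 := Nat.div_add_mod x (Nat.lcm d₁ d₂)
      have f2 := Nat.div_add_mod y (Nat.lcm d₁ d₂)
      rw [e4, e5] at f1
      exact f1.symm.trans f2

lemma card_le (m d : ℕ) (hm0 : 1 ≤ m) (hd : 1 ≤ d) :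
    ((range d).filter (fun x => d ∣ hm m x)).card ≤ 2 * m * d.divisors.card := by
  classical
  have h1 : (range d).filter (fun x => d ∣ hm m x) ⊆
      d.divisors.biUnion (fun e => (range d).filter (fun x => e ∣ x + 1 ∧ d / e ∣ x + (2 * m + 1))) := by
    intro x hx
    rw [mem_filter] at hx
    rw [mem_biUnion]
    refine ⟨Nat.gcd d (x + 1), ?_, ?_⟩
    · rw [Nat.mem_divisors]
      exact ⟨Nat.gcd_dvd_left _ _, by omega⟩
    · rw [mem_filter]
      refine ⟨hx.1, Nat.gcd_dvd_right _ _, ?_⟩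
      have h2 : d ∣ (x + 1) * (x + 2 * m + 1) := hx.2
      have hg : 0 < Nat.gcd d (x + 1) := Nat.gcd_pos_of_pos_left _ hd
      have h3 : Nat.Coprime (d / Nat.gcd d (x + 1)) ((x + 1) / Nat.gcd d (x + 1)) :=
        Nat.coprime_div_gcd_div_gcd hg
      have h4 : d / Nat.gcd d (x + 1) ∣ ((x + 1) / Nat.gcd d (x + 1)) * (x + 2 * m + 1) := by
        have h5 : Nat.gcd d (x + 1) * (d / Nat.gcd d (x + 1)) ∣
            Nat.gcd d (x + 1) * (((x + 1) / Nat.gcd d (x + 1)) * (x + 2 * m + 1)) := by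
          rw [Nat.mul_div_cancel' (Nat.gcd_dvd_left _ _), ← mul_assoc,
            Nat.mul_div_cancel' (Nat.gcd_dvd_right _ _)]
          exact h2
        exact Nat.dvd_of_mul_dvd_mul_left hg h5
      have h6 := h3.dvd_of_dvd_mul_left h4
      rwa [add_assoc] at h6
  refine (card_le_card h1).trans (card_biUnion_le.trans ?_)
  have h2 : ∀ e ∈ d.divisors,
      ((range d).filter (fun x => e ∣ x + 1 ∧ d / e ∣ x + (2 * m + 1))).card ≤ 2 * m := by
    intro e he
    rw [Nat.mem_divisors] at he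
    have h3 : d = e * (d / e) := (Nat.mul_div_cancel' he.1).symm
    have he0 : 0 < e := Nat.pos_of_dvd_of_pos he.1 hd
    have hde0 : 0 < d / e := Nat.div_pos (Nat.le_of_dvd hd he.1) he0
    have h4 := card_pair m e (d / e) hm0 he0 hde0
    rw [← h3] at h4
    exact h4
  refine (Finset.sum_le_card_nsmul _ _ _ h2).trans ?_
  rw [smul_eq_mul, mul_comm]

end Adm2

open Adm2 in
theorem T_ADM2 : P_ADM2 := by
  intro m hm0
  refine ⟨?_, ?_, ?_, ?_⟩
  · intro d x y hxy
    unfold hm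
    exact (hxy.add_right 1).mul ((hxy.add_right (2 * m)).add_right 1)
  · intro l hl
    exact roots m l hl
  · intro l hl
    exact ne m l hl
  · intro δ hδ
    obtain ⟨C, hC1, hC⟩ := Pool.Agent.H373R2.T4.DivB.div_bound (δ := δ) hδ
    refine ⟨2 * m * C, fun d hd => ?_⟩
    have h1 : (((range d).filter (fun x => d ∣ hm m x)).card : ℝ) ≤ 2 * m * (d.divisors.card : ℝ) := by
      exact_mod_cast card_le m d hm0 hd
    refine h1.trans ?_
    rw [mul_assoc (2 * (m : ℝ)) C]
    exact mul_le_mul_of_nonneg_left (hC d (by omega)) (by positivity)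

end Pool.Agent.H531.GC
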