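import Pool.Graph.R_pool_sql_team_seeded_707910d6.T2H19.GR.T_FREE
import Pool.Graph.R_pool_sql_team_seeded_707910d6.T2H19.GR.T_CRT
import Pool.Agent.H531.GC.Adm

/-! Package CONS of the random models of gcd recursions: numbers between the pair. -/

set_option autoImplicit false

namespace Pool.Agent.H531.GC

open Pool.Agent.T2H19.GR Pool.Agent.T2H19.GR.PkgFREE Finset

namespace Cns

/-- the condition at the prime `l` -/
def Q (m j b l x : ℕ) : Prop := ¬ l ∣ hm m x ∧ (2 * m < l ∧ l ^ 2 ≤ b → ¬ l ∣ x + 1 + j)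

lemma good_residue (m j l : ℕ) (hj0 : 0 < j) (hj : j < 2 * m) (hl : l.Prime) (hml : 2 * m < l) :
    l - 1 - j < l ∧ l ∣ (l - 1 - j) + 1 + j ∧ ¬ l ∣ hm m (l - 1 - j) := by
  refine ⟨by omega, ?_, ?_⟩
  · have : l - 1 - j + 1 + j = l := by omega
    rw [this]
  · intro h
    unfold hm at h
    rcases (hl.dvd_mul).1 h with h1 | h1
    · have h2 := Nat.le_of_dvd (by omega) h1
      omega
    · have h2 : l - 1 - j + 2 * m + 1 = l + (2 * m - j) := by omega
      rw [h2] at h1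
      have h3 := (Nat.dvd_add_right (dvd_refl l)).1 h1
      have h4 := Nat.le_of_dvd (by omega) h3
      omega

/-- the local factor at a prime of `T` -/
lemma fac_T (m j b l : ℕ) (hj0 : 0 < j) (hj : j < 2 * m) (hl : l.Prime) (hml : 2 * m < l)
    (hlb : l ^ 2 ≤ b) (hm0 : 1 ≤ m) :
    un l (Q m j b l) ≤ (1 - (Nz (hm m) l : ℝ) / l) * Real.exp (-(1 / (l : ℝ))) := by
  classical
  have hl' : (0 : ℝ) < l := by exact_mod_cast hl.pos
  obtain ⟨g1, g2, g3⟩ := good_residue m j l hj0 hj hl hml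
  have h1 := card_filter_add_card_filter_not (s := range l) (fun x => l ∣ hm m x)
  rw [card_range] at h1
  have h2 : (range l).filter (Q m j b l) ⊆
      ((range l).filter (fun x => ¬ l ∣ hm m x)).erase (l - 1 - j) := by
    intro x hx
    rw [mem_filter] at hx
    rw [mem_erase, mem_filter]
    refine ⟨?_, hx.1, hx.2.1⟩
    rintro rfl
    exact hx.2.2 ⟨hml, hlb⟩ g2
  have h3 := card_le_card h2
  rw [card_erase_of_mem (mem_filter.2 ⟨mem_range.2 g1, g3⟩)] at h3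
  have h4 : 0 < ((range l).filter (fun x => ¬ l ∣ hm m x)).card :=
    card_pos.2 ⟨_, mem_filter.2 ⟨mem_range.2 g1, g3⟩⟩
  have h5 : ((range l).filter (Q m j b l)).card + Nz (hm m) l + 1 ≤ l := by
    unfold Nz
    omega
  have h6 : (((range l).filter (Q m j b l)).card : ℝ) + Nz (hm m) l + 1 ≤ l := by
    exact_mod_cast h5
  rw [un_eq]
  have h7 : 1 - 1 / (l : ℝ) ≤ Real.exp (-(1 / (l : ℝ))) := by
    have := Real.add_one_le_exp (-(1 / (l : ℝ)))
    linarith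
  have h8 : 0 ≤ 1 - (Nz (hm m) l : ℝ) / l := by
    rw [sub_nonneg, div_le_one hl']
    have : (0 : ℝ) ≤ ((range l).filter (Q m j b l)).card := by positivity
    linarith
  refine le_trans ?_ (mul_le_mul_of_nonneg_left h7 h8)
  rw [div_le_iff₀ hl']
  have h9 : (1 - (Nz (hm m) l : ℝ) / l) * (1 - 1 / (l : ℝ)) * l =
      l - Nz (hm m) l - 1 + (Nz (hm m) l : ℝ) / l := by
    field_simp
    ring
  rw [h9]
  have h10 : (0 : ℝ) ≤ (Nz (hm m) l : ℝ) / l := by positivity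
  linarith

/-- the weight of the prime `l` -/
noncomputable def wt (m b l : ℕ) : ℝ :=
  open Classical in if 2 * m < l ∧ l ^ 2 ≤ b then Real.exp (-(1 / (l : ℝ))) else 1

lemma fac (m j b l : ℕ) (hj0 : 0 < j) (hj : j < 2 * m) (hl : l.Prime) (hm0 : 1 ≤ m) :
    un l (Q m j b l) ≤ (1 - (Nz (hm m) l : ℝ) / l) * wt m b l := by
  unfold wt
  split_ifs with h
  · exact fac_T m j b l hj0 hj hl h.1 h.2 hm0
  · rw [mul_one, ← un_miss (h := hm m) hl.pos]
    exact un_mono fun y hy => hy.1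

lemma prod_wt (m b : ℕ) (S : Finset ℕ) :
    ∏ l ∈ S, wt m b l = Real.exp (-∑ l ∈ S.filter (fun l => 2 * m < l ∧ l ^ 2 ≤ b), 1 / (l : ℝ)) := by
  classical
  unfold wt
  rw [prod_ite, prod_const_one, mul_one, ← Real.exp_sum, sum_neg_distrib]

lemma sqrt_log (b : ℕ) (hb : 16 ≤ b) : Real.log b / 4 ≤ Real.log (Nat.sqrt b) := by
  have h4 : 4 ≤ Nat.sqrt b := Nat.le_sqrt.2 (by omega)
  have hb0 : (0 : ℝ) < b := by exact_mod_cast (by omega : 0 < b)
  have hr0 : (0 : ℝ) < Nat.sqrt b := by exact_mod_cast (by omega : 0 < Nat.sqrt b)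
  have e1 : b < (Nat.sqrt b + 1) * (Nat.sqrt b + 1) := Nat.lt_succ_sqrt b
  have e2 : (b : ℝ) ≤ (Nat.sqrt b : ℝ) ^ 4 := by
    have e3 : b ≤ (Nat.sqrt b) ^ 4 := by nlinarith [Nat.pow_le_pow_left h4 2, sq_nonneg (Nat.sqrt b)]
    exact_mod_cast e3
  have e5 := Real.log_le_log hb0 e2
  rw [Real.log_pow] at e5
  push_cast at e5
  linarith

lemma sum_lower {C : ℝ} (hC : ∀ N : ℕ, 3 ≤ N →
    |∑ p ∈ (Icc 1 N).filter Nat.Prime, (1 : ℝ) / p - Real.log (Real.log N)| ≤ C) (m b : ℕ) (hb : 16 ≤ b) :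
    Real.log (Real.log (Nat.sqrt b)) - C - 2 * m ≤
      ∑ l ∈ ((Icc 1 (2 * b)).filter Nat.Prime).filter (fun l => 2 * m < l ∧ l ^ 2 ≤ b), 1 / (l : ℝ) := by
  classical
  have h4 : 4 ≤ Nat.sqrt b := Nat.le_sqrt.2 (by omega)
  have h1 := (abs_le.1 (hC (Nat.sqrt b) (by omega))).1
  have h2 : (Icc 1 (Nat.sqrt b)).filter Nat.Prime ⊆
      ((Icc 1 (2 * b)).filter Nat.Prime).filter (fun l => 2 * m < l ∧ l ^ 2 ≤ b) ∪ Icc 1 (2 * m) := by
    intro l hl
    rw [mem_filter, mem_Icc] at hl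
    rw [mem_union, mem_filter, mem_filter, mem_Icc, mem_Icc]
    by_cases h : 2 * m < l
    · left
      have h5 : l * l ≤ b := Nat.le_sqrt.1 hl.1.2
      refine ⟨⟨⟨hl.1.1, ?_⟩, hl.2⟩, h, by rw [sq]; exact h5⟩
      nlinarith [hl.1.1]
    · right
      exact ⟨hl.1.1, by omega⟩
  have h3 : ∑ p ∈ (Icc 1 (Nat.sqrt b)).filter Nat.Prime, (1 : ℝ) / p ≤
      ∑ l ∈ ((Icc 1 (2 * b)).filter Nat.Prime).filter (fun l => 2 * m < l ∧ l ^ 2 ≤ b), 1 / (l : ℝ) +
        ∑ l ∈ Icc 1 (2 * m), 1 / (l : ℝ) := by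
    refine (sum_le_sum_of_subset_of_nonneg h2 fun l _ _ => by positivity).trans ?_
    rw [← sum_union_inter]
    have : (0 : ℝ) ≤ ∑ l ∈ ((Icc 1 (2 * b)).filter Nat.Prime).filter
      (fun l => 2 * m < l ∧ l ^ 2 ≤ b) ∩ Icc 1 (2 * m), 1 / (l : ℝ) :=
      sum_nonneg fun l _ => by positivity
    linarith
  have h5 : ∑ l ∈ Icc 1 (2 * m), 1 / (l : ℝ) ≤ 2 * m := by
    have h6 : ∑ l ∈ Icc 1 (2 * m), 1 / (l : ℝ) ≤ ∑ l ∈ Icc 1 (2 * m), (1 : ℝ) := by
      apply sum_le_sum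
      intro l hl
      rw [mem_Icc] at hl
      have : (1 : ℝ) ≤ l := by exact_mod_cast hl.1
      rw [div_le_one (by linarith)]
      exact this
    refine h6.trans ?_
    rw [sum_const, Nat.card_Icc]
    simp
  linarith

/-- one number between -/
lemma one_j {C : ℝ} (hC : ∀ N : ℕ, 3 ≤ N →
    |∑ p ∈ (Icc 1 N).filter Nat.Prime, (1 : ℝ) / p - Real.log (Real.log N)| ≤ C)
    (m : ℕ) (hm0 : 1 ≤ m) (j : ℕ) (hj0 : 0 < j) (hj : j < 2 * m) (b M : ℕ) (hb : 16 ≤ b)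
    (hM : AllDvd (2 * b) M) :
    un M (fun y => Free b (hm m y) ∧ ∀ l : ℕ, l.Prime → l ^ 2 ≤ b → ¬ l ∣ y + 1 + j) ≤
      (4 * Real.exp (C + 2 * m)) / Real.log b * un M fun y => Free b (hm m y) := by
  classical
  have H : Adm (hm m) 2 := T_ADM2 m hm0
  set S : Finset ℕ := (Icc 1 (2 * b)).filter Nat.Prime with hS
  have hSp : ∀ l ∈ S, l.Prime ∧ l ≤ 2 * b := fun l hl =>
    ⟨(mem_filter.1 hl).2, (mem_Icc.1 (mem_filter.1 hl).1).2⟩
  have h1 : un M (fun y => Free b (hm m y)) = ∏ l ∈ S, (1 - (Nz (hm m) l : ℝ) / l) := by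
    rw [← prod_free T_CRT H hM S hSp]
    refine un_congr fun y => ⟨fun h2 l hl => h2 l (hSp l hl).1 (hSp l hl).2, fun h2 l hl hlb =>
      h2 l (mem_filter.2 ⟨mem_Icc.2 ⟨hl.one_lt.le, hlb⟩, hl⟩)⟩
  have h2 : un M (fun y => Free b (hm m y) ∧ ∀ l : ℕ, l.Prime → l ^ 2 ≤ b → ¬ l ∣ y + 1 + j) ≤
      un M (fun y => ∀ l ∈ S, Q m j b l (y % l)) := by
    apply un_mono
    rintro y ⟨g1, g2⟩ l hl
    refine ⟨fun h => g1 l (hSp l hl).1 (hSp l hl).2 ((dvd_mod H l y).1 h), fun h3 h4 => ?_⟩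
    refine g2 l (hSp l hl).1 h3.2 ?_
    have h5 : y % l + 1 + j ≡ y + 1 + j [MOD l] := ((Nat.mod_modEq y l).add_right 1).add_right j
    exact (h5.dvd_iff dvd_rfl).1 h4
  have h3 := T_CRT M S (Q m j b) hM.1 (fun l hl =>
    ⟨(hSp l hl).1, hM.2 l (hSp l hl).1.one_lt.le (hSp l hl).2⟩)
  have h4 : ∏ l ∈ S, un l (Q m j b l) ≤ ∏ l ∈ S, ((1 - (Nz (hm m) l : ℝ) / l) * wt m b l) := by
    apply prod_le_prod
    · intro l _
      unfold un
      positivity
    · intro l hl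
      exact fac m j b l hj0 hj (hSp l hl).1 hm0
  rw [prod_mul_distrib, ← h1, prod_wt] at h4
  refine h2.trans ?_
  rw [h3]
  refine h4.trans ?_
  rw [mul_comm]
  have hun : 0 ≤ un M (fun y => Free b (hm m y)) := by
    unfold un
    positivity
  refine mul_le_mul_of_nonneg_right ?_ hun
  have h5 := sum_lower hC m b hb
  have h6 := sqrt_log b hb
  have hlb : 0 < Real.log b := Real.log_pos (by exact_mod_cast (by omega : 1 < b))
  have hls : 0 < Real.log (Nat.sqrt b) := by linarith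
  have h7 : Real.exp (-∑ l ∈ S.filter (fun l => 2 * m < l ∧ l ^ 2 ≤ b), 1 / (l : ℝ)) ≤
      Real.exp (C + 2 * m - Real.log (Real.log (Nat.sqrt b))) := by
    apply Real.exp_le_exp.2
    linarith
  refine h7.trans ?_
  rw [Real.exp_sub, Real.exp_log hls, div_le_div_iff₀ hls hlb]
  have h8 : 0 < Real.exp (C + 2 * m) := Real.exp_pos _
  nlinarith

end Cns

open Cns in
theorem T_CONS : P_CONS := by
  classical
  intro m hm0
  obtain ⟨C, hC⟩ := Pool.Agent.Helper601.Mertens.mertens_inv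
  refine ⟨2 * m * (4 * Real.exp (C + 2 * m)) + Real.log 16, fun b M hb hM => ?_⟩
  have hun : 0 ≤ un M (fun y => Free b (hm m y)) := by
    unfold un
    positivity
  have hlb : 0 < Real.log b := Real.log_pos (by exact_mod_cast (by omega : 1 < b))
  have hl16 : 0 < Real.log 16 := Real.log_pos (by norm_num)
  have hexp : 0 < Real.exp (C + 2 * m) := Real.exp_pos _
  rcases Nat.lt_or_ge b 16 with hb16 | hb16
  · have h1 : un M (fun y => Free b (hm m y) ∧ ∃ j, 0 < j ∧ j < 2 * m ∧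
        ∀ l : ℕ, l.Prime → l ^ 2 ≤ b → ¬ l ∣ y + 1 + j) ≤ un M fun y => Free b (hm m y) :=
      un_mono fun y hy => hy.1
    refine h1.trans ?_
    have h2 : 1 ≤ (2 * m * (4 * Real.exp (C + 2 * m)) + Real.log 16) / Real.log b := by
      rw [one_le_div hlb]
      have h3 : Real.log b ≤ Real.log 16 := by
        apply Real.log_le_log (by exact_mod_cast (by omega : 0 < b))
        exact_mod_cast hb16.le
      have h4 : 0 ≤ 2 * (m : ℝ) * (4 * Real.exp (C + 2 * m)) := by positivity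
      linarith
    calc un M (fun y => Free b (hm m y)) = 1 * un M (fun y => Free b (hm m y)) := (one_mul _).symm
      _ ≤ _ := mul_le_mul_of_nonneg_right h2 hun
  · have h1 : un M (fun y => Free b (hm m y) ∧ ∃ j, 0 < j ∧ j < 2 * m ∧
        ∀ l : ℕ, l.Prime → l ^ 2 ≤ b → ¬ l ∣ y + 1 + j) ≤
        un M (fun y => ∃ j ∈ (range (2 * m)).filter (fun j => 0 < j),
          (Free b (hm m y) ∧ ∀ l : ℕ, l.Prime → l ^ 2 ≤ b → ¬ l ∣ y + 1 + j)) := by
      apply un_mono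
      rintro y ⟨g1, j, g2, g3, g4⟩
      exact ⟨j, mem_filter.2 ⟨mem_range.2 g3, g2⟩, g1, g4⟩
    refine h1.trans ((un_union _ _).trans ?_)
    have h2 : ∀ j ∈ (range (2 * m)).filter (fun j => 0 < j),
        un M (fun y => Free b (hm m y) ∧ ∀ l : ℕ, l.Prime → l ^ 2 ≤ b → ¬ l ∣ y + 1 + j) ≤
        (4 * Real.exp (C + 2 * m)) / Real.log b * un M fun y => Free b (hm m y) := by
      intro j hj
      rw [mem_filter, mem_range] at hj
      exact one_j hC m hm0 j hj.2 hj.1 b M hb16 hM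
    refine (sum_le_sum h2).trans ?_
    rw [sum_const, nsmul_eq_mul, ← mul_assoc]
    refine mul_le_mul_of_nonneg_right ?_ hun
    rw [← mul_div_assoc]
    refine div_le_div_of_nonneg_right ?_ hlb.le
    have h3 : (((range (2 * m)).filter (fun j => 0 < j)).card : ℝ) ≤ 2 * m := by
      have := card_filter_le (range (2 * m)) (fun j => 0 < j)
      rw [card_range] at this
      exact_mod_cast this
    have h4 := mul_le_mul_of_nonneg_right h3 (show 0 ≤ 4 * Real.exp (C + 2 * m) by positivity)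
    linarith

end Pool.Agent.H531.GC
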