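import Pool.Graph.R_pool_sql_team_seeded_707910d6.T2H19.GR.T_ZT
import Pool.Graph.R_pool_sql_team_seeded_707910d6.T2H19.GR.T_CHN

/-! # The recursion of `MP_9227d9_nt` and its random model -/

set_option autoImplicit false

namespace Pool.Agent.H531.GC

open Finset Filter Topology Pool.Agent.T2H19.GR

/-- The recursion of `MP_9227d9_nt` with an array `X`: in the step from `n` to `n + 1` with `a n ≠ 0` the number
`(n + 1) (n + 2 m + 1)` of the problem is replaced by `(x + 1) (x + 2 m + 1)`, `x = X s b`, `b = a n + n`, where `s = σ n` is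
the last zero before `n` (`0` if there is none). As `n ≡ b` modulo `a n`, the array `X s b = b` gives the recursion of the
problem. -/
structure IsRun (m : ℕ) (X : ℕ → ℕ → ℕ) (a σ : ℕ → ℕ) : Prop where
  one : a 1 = 4 * m ^ 2
  sig : σ 1 = 0
  zero : ∀ n, 1 ≤ n → a n = 0 → a (n + 1) = (n + 1) * (n + 2 * m + 1) ∧ σ (n + 1) = n
  pos : ∀ n, 1 ≤ n → a n ≠ 0 →
    a (n + 1) = a n - Nat.gcd (a n) ((X (σ n) (a n + n) + 1) * (X (σ n) (a n + n) + 2 * m + 1)) ∧
      σ (n + 1) = σ n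

/-- the number `k` is prime in the model if its substitute `x` has no prime factor `l ≤ √k` -/
def PrimeIn (k x : ℕ) : Prop := ∀ l : ℕ, l.Prime → l ^ 2 ≤ k → ¬ l ∣ x

/-- the initial value of the stage after the zero `s` (`s = 0`: the first stage) -/
def Rm (m s : ℕ) : ℕ := if s = 0 then 4 * m ^ 2 else (s + 1) * (s + 2 * m + 1)

namespace Run

lemma Rm_zero (m : ℕ) : Rm m 0 = 4 * m ^ 2 := by
  unfold Rm
  rw [if_pos rfl]

lemma Rm_of_pos (m s : ℕ) (hs : 1 ≤ s) : Rm m s = (s + 1) * (s + 2 * m + 1) := by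
  unfold Rm
  rw [if_neg (by omega)]

lemma Rm_ge (m s : ℕ) (hm : 1 ≤ m) : s + 1 ≤ Rm m s := by
  rcases Nat.eq_zero_or_pos s with rfl | hs
  · rw [Rm_zero]
    nlinarith
  · rw [Rm_of_pos m s hs]
    nlinarith

lemma Rm_pos (m s : ℕ) (hm : 1 ≤ m) : 0 < Rm m s := by
  have := Rm_ge m s hm
  omega

lemma Rm_big (m s : ℕ) (hs : 4 ≤ s) : 2 * (s : ℝ) ^ (3 / 2 : ℝ) ≤ Rm m s := by
  have h2 : ((s : ℝ)) ^ 2 ≤ Rm m s := by
    have : s ^ 2 ≤ Rm m s := by
      rw [Rm_of_pos m s (by omega)]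
      nlinarith
    exact_mod_cast this
  have hs' : (4 : ℝ) ≤ s := by exact_mod_cast hs
  have hs0 : (0 : ℝ) < s := by linarith
  refine le_trans ?_ h2
  have h3 : (s : ℝ) ^ 2 = (s : ℝ) ^ (3 / 2 : ℝ) * (s : ℝ) ^ (1 / 2 : ℝ) := by
    rw [← Real.rpow_add hs0]
    norm_num
  rw [h3, mul_comm]
  apply mul_le_mul_of_nonneg_left _ (Real.rpow_nonneg hs0.le _)
  rw [← Real.sqrt_eq_rpow]
  apply Real.le_sqrt_of_sq_le
  linarith

/-- the zeros are the chain started at `0` -/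
lemma run_chain {m : ℕ} (hm : 1 ≤ m) {X : ℕ → ℕ → ℕ} {a σ : ℕ → ℕ}
    (h : IsRun m X a σ) : StrictMono (ch (T2H19.GR.hm m) (Rm m) X 0) ∧
      (∀ n, 1 ≤ n → (a n = 0 ↔ ∃ k, ch (T2H19.GR.hm m) (Rm m) X 0 (k + 1) = n)) ∧
      ∀ k, σ (ch (T2H19.GR.hm m) (Rm m) X 0 (k + 1)) = ch (T2H19.GR.hm m) (Rm m) X 0 k := by
  have h0 := T_CHN T_ZT (T2H19.GR.hm m) (Rm m) X (fun n => if n = 0 then 0 else a n) σ 0
    (fun s => Rm_pos m s hm) (by simp) ?_ ?_
  · refine ⟨h0.1, fun n hn => ?_, h0.2.2⟩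
    have h1 := h0.2.1 n (Nat.zero_le _)
    have hne : n ≠ 0 := by omega
    simp only [if_neg hne] at h1
    rw [h1]
    constructor
    · rintro ⟨k, hk⟩
      rcases Nat.eq_zero_or_pos k with rfl | hk0
      · change 0 = n at hk
        omega
      · exact ⟨k - 1, by rwa [Nat.sub_add_cancel hk0]⟩
    · rintro ⟨k, hk⟩
      exact ⟨k + 1, hk⟩
  · intro n _ hn
    rcases Nat.eq_zero_or_pos n with rfl | hn0
    · simp only [Nat.zero_add, one_ne_zero, if_false]
      exact ⟨by rw [Rm_zero]; exact h.one, h.sig⟩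
    · have hne : n ≠ 0 := by omega
      simp only [if_neg hne] at hn
      simp only [Nat.succ_ne_zero, if_false]
      rw [Rm_of_pos m n hn0]
      exact h.zero n hn0 hn
  · intro n _ hn
    rcases Nat.eq_zero_or_pos n with rfl | hn0
    · simp at hn
    · have hne : n ≠ 0 := by omega
      simp only [if_neg hne] at hn ⊢
      simp only [Nat.succ_ne_zero, if_false]
      exact h.pos n hn0 hn

/-! ### existence and uniqueness of the run -/

/-- the value and the last zero at the time `n + 1` -/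
def st (m : ℕ) (X : ℕ → ℕ → ℕ) : ℕ → ℕ × ℕ
  | 0 => (4 * m ^ 2, 0)
  | n + 1 => if (st m X n).1 = 0 then ((n + 2) * (n + 1 + 2 * m + 1), n + 1) else
      ((st m X n).1 - Nat.gcd (st m X n).1 ((X (st m X n).2 ((st m X n).1 + (n + 1)) + 1) *
        (X (st m X n).2 ((st m X n).1 + (n + 1)) + 2 * m + 1)),
        (st m X n).2)

lemma isRun_st (m : ℕ) (X : ℕ → ℕ → ℕ) :
    IsRun m X (fun n => (st m X (n - 1)).1) (fun n => (st m X (n - 1)).2) := by
  refine ⟨rfl, rfl, ?_, ?_⟩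
  · intro n hn h0
    obtain ⟨k, rfl⟩ : ∃ k, n = k + 1 := ⟨n - 1, by omega⟩
    simp only [Nat.add_sub_cancel] at h0 ⊢
    rw [st, if_pos h0]
    exact ⟨rfl, rfl⟩
  · intro n hn h0
    obtain ⟨k, rfl⟩ : ∃ k, n = k + 1 := ⟨n - 1, by omega⟩
    simp only [Nat.add_sub_cancel] at h0 ⊢
    rw [st, if_neg h0]
    exact ⟨rfl, rfl⟩

lemma run_unique {m : ℕ} {X : ℕ → ℕ → ℕ} {a σ a' σ' : ℕ → ℕ} (h : IsRun m X a σ)
    (h' : IsRun m X a' σ') : ∀ n, 1 ≤ n → a' n = a n ∧ σ' n = σ n := by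
  intro n hn
  induction n, hn using Nat.le_induction with
  | base => exact ⟨by rw [h.one, h'.one], by rw [h.sig, h'.sig]⟩
  | succ n hn ih =>
    obtain ⟨i1, i2⟩ := ih
    by_cases h0 : a n = 0
    · have h0' : a' n = 0 := by rw [i1, h0]
      obtain ⟨k1, k2⟩ := h.zero n hn h0
      obtain ⟨k3, k4⟩ := h'.zero n hn h0'
      exact ⟨by rw [k1, k3], by rw [k2, k4]⟩
    · have h0' : a' n ≠ 0 := by rw [i1]; exact h0
      obtain ⟨k1, k2⟩ := h.pos n hn h0
      obtain ⟨k3, k4⟩ := h'.pos n hn h0'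
      exact ⟨by rw [k1, k3, i1, i2], by rw [k2, k4, i2]⟩

/-! ### the array `X s b = b` -/

lemma gcd_level (m a n : ℕ) : Nat.gcd a ((a + n + 1) * (a + n + 2 * m + 1)) =
    Nat.gcd a ((n + 1) * (n + 1 + 2 * m)) := by
  have h1 : (a + n + 1) * (a + n + 2 * m + 1) ≡ (n + 1) * (n + 1 + 2 * m) [MOD a] := by
    apply Nat.ModEq.mul
    · rw [add_assoc]
      exact Nat.add_modEq_left
    · rw [show a + n + 2 * m + 1 = a + (n + 1 + 2 * m) by ring]
      exact Nat.add_modEq_left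
  rw [Nat.gcd_comm a, Nat.gcd_comm a]
  exact h1.gcd_eq

lemma isRun_of_int (m : ℕ) (a : ℕ → ℤ) (h1 : a 1 = 4 * m ^ 2)
    (h : ∀ n : ℕ, 2 ≤ n → a n = |a (n - 1) - (Int.gcd (a (n - 1)) ((n : ℤ) * (n + 2 * m)) : ℤ)|) :
    ∃ σ : ℕ → ℕ, IsRun m (fun _ b => b) (fun n => (a n).toNat) σ := by
  classical
  let σ : ℕ → ℕ := fun n => Nat.rec 0 (fun k r => if 1 ≤ k ∧ a k = 0 then k else r) n
  have hσ : ∀ n, σ (n + 1) = if 1 ≤ n ∧ a n = 0 then n else σ n := fun n => rfl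
  have hnn : ∀ n, 1 ≤ n → 0 ≤ a n := by
    intro n hn
    rcases Nat.lt_or_ge n 2 with h2 | h2
    · obtain rfl : n = 1 := by omega
      rw [h1]; positivity
    · rw [h n h2]; exact abs_nonneg _
  have hcast : ∀ n : ℕ, (((n + 1 : ℕ) : ℤ) * (((n + 1 : ℕ) : ℤ) + 2 * m)) =
      (((n + 1) * (n + 1 + 2 * m) : ℕ) : ℤ) := by
    intro n
    push_cast
    ring
  refine ⟨σ, ?_, ?_, ?_, ?_⟩
  · change (a 1).toNat = 4 * m ^ 2
    rw [h1]
    have : ((4 : ℤ) * (m : ℤ) ^ 2) = ((4 * m ^ 2 : ℕ) : ℤ) := by push_cast; ring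
    rw [this, Int.toNat_natCast]
  · rw [show (1 : ℕ) = 0 + 1 from rfl, hσ 0]
    simp [σ]
  · intro n hn h0
    have h0' : a n = 0 := by
      have := hnn n hn
      have h2 : ((a n).toNat : ℤ) = a n := Int.toNat_of_nonneg this
      have h3 : (a n).toNat = 0 := h0
      omega
    constructor
    · have h2 := h (n + 1) (by omega)
      rw [Nat.add_sub_cancel, h0', hcast n] at h2
      change (a (n + 1)).toNat = (n + 1) * (n + 2 * m + 1)
      rw [h2, Int.gcd_zero_left, Int.natAbs_natCast, zero_sub, abs_neg, Nat.abs_cast,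
        Int.toNat_natCast]
      ring
    · rw [hσ n, if_pos ⟨hn, h0'⟩]
  · intro n hn h0
    change (a n).toNat ≠ 0 at h0
    have hz : ((a n).toNat : ℤ) = a n := Int.toNat_of_nonneg (hnn n hn)
    have h0' : a n ≠ 0 := by
      intro h2
      rw [h2] at h0
      exact h0 rfl
    constructor
    · have h2 := h (n + 1) (by omega)
      rw [Nat.add_sub_cancel, hcast n] at h2
      rw [gcd_level, h2]
      obtain ⟨k, hk⟩ : ∃ k : ℕ, k = (a n).toNat := ⟨_, rfl⟩
      rw [← hk] at hz ⊢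
      rw [← hz, Int.gcd_natCast_natCast]
      have h3 : Nat.gcd k ((n + 1) * (n + 1 + 2 * m)) ≤ k := Nat.gcd_le_left _ (by
        rcases Nat.eq_zero_or_pos k with h4 | h4
        · rw [h4] at hz
          exact absurd hz.symm (by simpa using h0')
        · exact h4)
      rw [abs_of_nonneg (by
        have : ((Nat.gcd k ((n + 1) * (n + 1 + 2 * m)) : ℕ) : ℤ) ≤ k := by exact_mod_cast h3
        linarith)]
      omega
    · rw [hσ n, if_neg (fun h2 => h0' h2.2)]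

lemma primeIn_self {k : ℕ} (hk : 2 ≤ k) : PrimeIn k k ↔ k.Prime := by
  constructor
  · intro h
    by_contra hc
    have h1 := Nat.minFac_sq_le_self (by omega : 0 < k) hc
    exact h _ (Nat.minFac_prime (by omega)) h1 (Nat.minFac_dvd k)
  · intro h l hl hl2 hlm
    have h1 := (Nat.dvd_prime h).mp hlm
    have h2 := hl.two_le
    rcases h1 with h1 | h1
    · omega
    · subst h1
      nlinarith

/-- for the array `X s b = b` the recursion and the question are those of the problem -/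
theorem literal (m : ℕ) (a : ℕ → ℤ) (h1 : a 1 = 4 * m ^ 2)
    (h : ∀ n : ℕ, 2 ≤ n → a n = |a (n - 1) - (Int.gcd (a (n - 1)) ((n : ℤ) * (n + 2 * m)) : ℤ)|)
    (a' σ : ℕ → ℕ) (hr : IsRun m (fun _ b => b) a' σ) :
    ∀ n, 1 ≤ n → (a' n : ℤ) = a n := by
  intro n hn
  obtain ⟨σ', hσ'⟩ := isRun_of_int m a h1 h
  have h2 := (run_unique hσ' hr n hn).1
  rw [h2]
  apply Int.toNat_of_nonneg
  rcases Nat.lt_or_ge n 2 with h3 | h3
  · obtain rfl : n = 1 := by omega
    rw [h1]; positivity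
  · rw [h n h3]; exact abs_nonneg _

lemma primeIn_of_free {m n x k y : ℕ} (h : Free n (T2H19.GR.hm m x)) (hk : k ≤ n + 2 * m + 1) (hn : 2 * m + 1 ≤ n)
    (hy : y ∣ T2H19.GR.hm m x) : PrimeIn k y := by
  intro l hl hlk hly
  refine h l hl ?_ (hly.trans hy)
  have h2 := hl.two_le
  nlinarith

end Run

end Pool.Agent.H531.GC
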