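import Pool.Agent.H531.GC.Cons
import Pool.Agent.H531.GC.Run
import Pool.Graph.R_pool_sql_team_seeded_707910d6.T2H19.GR.All

/-! # The random model of the recursion of `MP_9227d9_nt`: end of the proof -/

set_option autoImplicit false

namespace Pool.Agent.H531.GC

open MeasureTheory ProbabilityTheory Finset Filter Topology Pool.Agent.T2H19.GR

namespace Fn

open Pool.Agent.T2H19.GR.PkgGL1 in
/-- all but finitely many stages are good (also the length of the stages is controlled) -/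
theorem gl1 {Ω : Type} [MeasurableSpace Ω] {M : ℕ → ℕ} {P : Measure Ω} {X : ℕ → ℕ → Ω → ℕ}
    (hM : Model M P X) (h R : ℕ → ℕ) (G : ℕ → ℕ → Prop) (C₀ : ℝ) (s₁ : ℕ) (hR : ∀ s, 0 < R s)
    (hRb : ∀ s : ℕ, s₁ ≤ s → 2 * (s : ℝ) ^ (3 / 2 : ℝ) ≤ R s)
    (hC₀ : ∀ s : ℕ, s₁ ≤ s → P.real {ω | ¬ (G (nx h R (fun s b => X s b ω) s)
      (X s (nx h R (fun s b => X s b ω) s) ω) ∧
      R s ≤ 2 * nx h R (fun s b => X s b ω) s)} ≤ C₀ * Real.log s ^ (-(1 / 2) : ℝ)) (s₀ : ℕ) :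
    ∀ᵐ ω ∂P, ∀ᶠ k : ℕ in atTop, G (ch h R (fun s b => X s b ω) s₀ (k + 1))
      (X (ch h R (fun s b => X s b ω) s₀ k) (ch h R (fun s b => X s b ω) s₀ (k + 1)) ω) ∧
      R (ch h R (fun s b => X s b ω) s₀ k) ≤ 2 * ch h R (fun s b => X s b ω) s₀ (k + 1) := by
  have hZT := T_ZT
  have hGEN := T_GEN
  have := hM.prob
  set r : ℝ := (3 / 2 : ℝ) ^ (-(1 / 2) : ℝ) with hr
  have hr1 : r < 1 := Real.rpow_lt_one_of_one_lt_of_neg (by norm_num) (by norm_num)
  set C : ℝ := max C₀ 0 with hCdef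
  set K : ℝ := C / (1 - r) with hKdef
  have hC0 : 0 ≤ C := le_max_right _ _
  have hK0 : 0 ≤ K := div_nonneg hC0 (by linarith)
  have hK : C + K * r = K := by
    have h1 : K * (1 - r) = C := div_mul_cancel₀ _ (by linarith)
    linarith
  have hC : ∀ s : ℕ, s₁ ≤ s → P.real {ω | Bad h R G (vv X ω) s} ≤ C * Real.log s ^ (-(1 / 2) : ℝ) := by
    intro s hs
    refine (hC₀ s hs).trans ?_
    exact mul_le_mul_of_nonneg_right (le_max_left _ _) (Real.rpow_nonneg (Real.log_natCast_nonneg s) _)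
  have hb : ∀ t : ℕ, s₁ ≤ t → 3 ≤ t → s₀ ≤ t → P (⋃ N, {ω | Ev h R G t N s₀ (vv X ω)}) ≤
      ENNReal.ofReal (K * Real.log (t : ℝ) ^ (-(1 / 2) : ℝ)) := by
    intro t ht1 ht3 ht0
    have hmon : Monotone fun N => {ω | Ev h R G t N s₀ (vv X ω)} := by
      intro N N' hN ω hω
      obtain ⟨k, h1, h2, h3⟩ := hω
      exact ⟨k, h1, by omega, h3⟩
    rw [hmon.measure_iUnion]
    refine iSup_le fun N => ?_
    have h1 := bound (G := G) hZT hGEN hM hR hr hK0 hK hRb hC ht1 ht3 N N s₀ (by omega)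
    rw [max_eq_right ht0] at h1
    rw [← ofReal_measureReal]
    exact ENNReal.ofReal_le_ofReal h1
  rw [ae_iff]
  have hlim : Tendsto (fun t : ℕ => ENNReal.ofReal (K * Real.log (t : ℝ) ^ (-(1 / 2) : ℝ))) atTop (𝓝 0) := by
    have h1 : Tendsto (fun t : ℕ => Real.log (t : ℝ) ^ (-(1 / 2) : ℝ)) atTop (𝓝 0) :=
      (tendsto_rpow_neg_atTop (by norm_num : (0 : ℝ) < 1 / 2)).comp
        (Real.tendsto_log_atTop.comp tendsto_natCast_atTop_atTop)
    have h2 := (h1.const_mul K)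
    rw [mul_zero] at h2
    have h3 := ENNReal.tendsto_ofReal h2
    rwa [ENNReal.ofReal_zero] at h3
  refine le_antisymm (ge_of_tendsto hlim ?_) zero_le
  filter_upwards [eventually_ge_atTop s₁, eventually_ge_atTop 3, eventually_ge_atTop s₀] with t ht1 ht3 ht0
  refine le_trans (measure_mono fun ω hω => ?_) (hb t ht1 ht3 ht0)
  by_contra hcon
  apply hω
  filter_upwards [eventually_ge_atTop t] with k hk
  by_contra hG
  apply hcon
  rw [Set.mem_iUnion]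
  refine ⟨cv h R (vv X ω) s₀ k + 1, k, ?_, Nat.lt_succ_self _, ?_⟩
  · have := cv_ge (h := h) hZT hR (vv X ω) s₀ k
    omega
  · intro h1
    exact hG h1

/-- the good event at the level `b`: free, and no number between the pair is free of small primes -/
def GG (m b y : ℕ) : Prop := Free b (T2H19.GR.hm m y) ∧
  ¬ ∃ j, 0 < j ∧ j < 2 * m ∧ ∀ l : ℕ, l.Prime → l ^ 2 ≤ b → ¬ l ∣ y + 1 + j

lemma hSTG : P_STG :=
  T_STG (T_SL T_ZT (T_DL T_ZT) T_GEN) (T_NT (T_FREE T_CRT) (T_DA1 T_CRT) T_DA2)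

/-- `AllDvd (2 b) ((b ^ 2)!)` -/
lemma allDvd (b : ℕ) (hb : 2 ≤ b) : AllDvd (2 * b) ((b ^ 2).factorial) := by
  refine ⟨Nat.factorial_pos _, fun d hd1 hd2 => Nat.dvd_factorial (by omega) ?_⟩
  nlinarith

variable {Ω : Type} [MeasurableSpace Ω]

/-- the probability of a bad stage -/
lemma stage {P : Measure Ω} {X : ℕ → ℕ → Ω → ℕ} (hX : Model (fun b => (b ^ 2).factorial) P X)
    (m : ℕ) (hm0 : 1 ≤ m) : ∃ C : ℝ, ∃ s₁ : ℕ, ∀ s : ℕ, s₁ ≤ s →
      P.real {ω | ¬ (GG m (nx (T2H19.GR.hm m) (Rm m) (fun s b => X s b ω) s)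
      (X s (nx (T2H19.GR.hm m) (Rm m) (fun s b => X s b ω) s) ω) ∧
      Rm m s ≤ 2 * nx (T2H19.GR.hm m) (Rm m) (fun s b => X s b ω) s)} ≤ C * Real.log s ^ (-(1 / 2) : ℝ) := by
  have := hX.prob
  obtain ⟨C, hC⟩ := T_CONS m hm0
  obtain ⟨C', hC'⟩ : ∃ C' : ℝ, C' = 2 * |C| := ⟨_, rfl⟩
  have hC'0 : 0 ≤ C' := by rw [hC']; positivity
  obtain ⟨θ, hθ⟩ : ∃ θ : ℕ → ℝ, θ = fun A : ℕ => max 0 (1 - C' / Real.log (A : ℝ)) := ⟨_, rfl⟩
  have hθ1 : ∀ A, 0 ≤ θ A ∧ θ A ≤ 1 := by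
    intro A
    rw [hθ]
    refine ⟨le_max_left _ _, max_le zero_le_one ?_⟩
    have : 0 ≤ C' / Real.log A := div_nonneg hC'0 (Real.log_natCast_nonneg A)
    linarith
  have h1 := hSTG Ω 2 P X le_rfl hX (T2H19.GR.hm m) (Rm m) 2 (T_ADM2 m hm0) (by norm_num)
    (fun s => Run.Rm_ge m s hm0) (GG m) θ hθ1 (fun b y h => h.1) (by
      filter_upwards [eventually_ge_atTop 16] with A hA b hb1 hb2
      have hb : 2 ≤ b := by omega
      have h2 := hC b ((b ^ 2).factorial) hb (allDvd b hb)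
      have h3 := Fin.un_split ((b ^ 2).factorial) (fun y => Free b (T2H19.GR.hm m y))
        (fun y => ∃ j, 0 < j ∧ j < 2 * m ∧ ∀ l : ℕ, l.Prime → l ^ 2 ≤ b → ¬ l ∣ y + 1 + j)
      have hun := Fin.un_nonneg ((b ^ 2).factorial) (fun y => Free b (T2H19.GR.hm m y))
      have hA0 : (16 : ℝ) ≤ A := by exact_mod_cast hA
      have hlA : 0 < Real.log A := Real.log_pos (by linarith)
      have hlb : Real.log A / 2 ≤ Real.log b := by
        have hb' : (A : ℝ) ≤ 2 * b := by exact_mod_cast hb1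
        have hb0 : (0 : ℝ) < b := by linarith
        have e1 : (A : ℝ) ≤ (b : ℝ) ^ 2 := by nlinarith
        have e2 := Real.log_le_log (by linarith) e1
        rw [Real.log_pow] at e2
        push_cast at e2
        linarith
      have hlb0 : 0 < Real.log b := by linarith
      have h4 : C / Real.log b ≤ C' / Real.log A := by
        rw [div_le_div_iff₀ hlb0 hlA, hC']
        have e1 : C * Real.log A ≤ |C| * Real.log A :=
          mul_le_mul_of_nonneg_right (le_abs_self C) hlA.le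
        have e2 := mul_le_mul_of_nonneg_left hlb (abs_nonneg C)
        linarith
      have h5 : un ((b ^ 2).factorial) (fun y => GG m b y) =
          un ((b ^ 2).factorial) (fun y => Free b (T2H19.GR.hm m y)) -
          un ((b ^ 2).factorial) (fun y => Free b (T2H19.GR.hm m y) ∧
            ∃ j, 0 < j ∧ j < 2 * m ∧ ∀ l : ℕ, l.Prime → l ^ 2 ≤ b → ¬ l ∣ y + 1 + j) := by
        rw [← h3]
        unfold GG
        ring
      change θ A * _ ≤ un ((b ^ 2).factorial) (fun y => GG m b y)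
      rw [h5]
      have h6 := mul_le_mul_of_nonneg_right h4 hun
      rw [hθ]
      simp only
      rcases le_total 0 (1 - C' / Real.log A) with h7 | h7
      · rw [max_eq_right h7]
        linarith
      · rw [max_eq_left h7, zero_mul, ← h5]
        exact Fin.un_nonneg _ _)
  have hRt : Tendsto (fun s : ℕ => ((Rm m s : ℕ) : ℝ)) atTop atTop := by
    apply tendsto_natCast_atTop_atTop.comp
    apply tendsto_atTop_mono (fun s => (Nat.le_succ s).trans (Run.Rm_ge m s hm0)) tendsto_id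
  have hlog : ∀ᶠ s : ℕ in atTop, 1 ≤ Real.log (Rm m s) :=
    (Real.tendsto_log_atTop.comp hRt).eventually_ge_atTop 1
  obtain ⟨s₁, hs₁⟩ := eventually_atTop.1 (h1.and hlog)
  refine ⟨C' + 1, max s₁ 4, fun s hs => ?_⟩
  obtain ⟨h2, hL⟩ := hs₁ s ((le_max_left _ _).trans hs)
  have hs4 : 4 ≤ s := (le_max_right _ _).trans hs
  have h3 := probReal_compl_eq_one_sub (μ := P) (Fin.meas_ev T_ZT T_GEN hX (T2H19.GR.hm m) (Rm m)
    (fun n y => GG m n y ∧ Rm m s ≤ 2 * n) s)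
  have h4 : P.real {ω | ¬ (GG m (nx (T2H19.GR.hm m) (Rm m) (fun s b => X s b ω) s)
      (X s (nx (T2H19.GR.hm m) (Rm m) (fun s b => X s b ω) s) ω) ∧
      Rm m s ≤ 2 * nx (T2H19.GR.hm m) (Rm m) (fun s b => X s b ω) s)} ≤
      (C' + 1) * Real.log (Rm m s) ^ (-(1 / 2) : ℝ) := by
    have h5 : {ω | ¬ (GG m (nx (T2H19.GR.hm m) (Rm m) (fun s b => X s b ω) s)
      (X s (nx (T2H19.GR.hm m) (Rm m) (fun s b => X s b ω) s) ω) ∧
      Rm m s ≤ 2 * nx (T2H19.GR.hm m) (Rm m) (fun s b => X s b ω) s)} =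
      {ω | GG m (nx (T2H19.GR.hm m) (Rm m) (fun s b => X s b ω) s)
      (X s (nx (T2H19.GR.hm m) (Rm m) (fun s b => X s b ω) s) ω) ∧
      Rm m s ≤ 2 * nx (T2H19.GR.hm m) (Rm m) (fun s b => X s b ω) s}ᶜ := rfl
    rw [h5, h3]
    have hL0 : 0 < Real.log (Rm m s) := by linarith
    obtain ⟨ρ, hρ⟩ : ∃ ρ : ℝ, ρ = Real.log (Rm m s) ^ (-(1 / 2) : ℝ) := ⟨_, rfl⟩
    have hρ0 : 0 ≤ ρ := by rw [hρ]; exact Real.rpow_nonneg hL0.le _
    have hρ1 : ρ ≤ 1 := by
      rw [hρ]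
      exact Real.rpow_le_one_of_one_le_of_nonpos hL (by norm_num)
    have h6 : 1 / Real.log (Rm m s) ≤ ρ := by
      rw [hρ, one_div, ← Real.rpow_neg_one]
      exact Real.rpow_le_rpow_of_exponent_le hL (by norm_num)
    have h7 : 1 - C' * ρ ≤ θ (Rm m s) := by
      rw [hθ]
      refine le_trans ?_ (le_max_right _ _)
      have := mul_le_mul_of_nonneg_left h6 hC'0
      rw [mul_one_div] at this
      linarith
    rw [← hρ] at h2 ⊢
    have h8 : (1 - C' * ρ) * (1 - ρ) ≤ θ (Rm m s) * (1 - ρ) :=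
      mul_le_mul_of_nonneg_right h7 (by linarith)
    have h9 : 0 ≤ C' * ρ * ρ := by positivity
    linarith
  refine h4.trans ?_
  have hs' : (4 : ℝ) ≤ s := by exact_mod_cast hs4
  refine mul_le_mul_of_nonneg_left ?_ (by linarith)
  apply Real.rpow_le_rpow_of_nonpos (Real.log_pos (by linarith)) _ (by norm_num)
  apply Real.log_le_log (by linarith)
  have := Run.Rm_ge m s hm0
  exact_mod_cast (by omega : s ≤ Rm m s)

lemma good_ae {P : Measure Ω} {X : ℕ → ℕ → Ω → ℕ} (hX : Model (fun b => (b ^ 2).factorial) P X)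
    (m : ℕ) (hm0 : 1 ≤ m) :
    ∀ᵐ ω ∂P, ∀ᶠ k : ℕ in atTop, GG m (ch (T2H19.GR.hm m) (Rm m) (fun s b => X s b ω) 0 (k + 1))
      (X (ch (T2H19.GR.hm m) (Rm m) (fun s b => X s b ω) 0 k)
        (ch (T2H19.GR.hm m) (Rm m) (fun s b => X s b ω) 0 (k + 1)) ω) ∧
      Rm m (ch (T2H19.GR.hm m) (Rm m) (fun s b => X s b ω) 0 k) ≤
        2 * ch (T2H19.GR.hm m) (Rm m) (fun s b => X s b ω) 0 (k + 1) := by
  obtain ⟨C, s₁, h1⟩ := stage hX m hm0
  refine gl1 hX (T2H19.GR.hm m) (Rm m) (GG m) C (max s₁ 4) (fun s => Run.Rm_pos m s hm0)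
    (fun s hs => Run.Rm_big m s ((le_max_right _ _).trans hs)) ?_ 0
  intro s hs
  exact h1 s ((le_max_left _ _).trans hs)

end Fn

/-- the theorem on the model -/
theorem model_main {Ω : Type} [MeasurableSpace Ω] (P : Measure Ω) (X : ℕ → ℕ → Ω → ℕ)
    (hX : Model (fun b => (b ^ 2).factorial) P X) (a σ : ℕ → Ω → ℕ → ℕ)
    (hrun : ∀ m, 1 ≤ m → ∀ ω, IsRun m (fun s b => X s b ω) (a m ω) (σ m ω)) :
    ∀ᵐ ω ∂P, ∀ m, 1 ≤ m →
      (∀ N, ∃ n, N ≤ n ∧ a m ω n = 0) ∧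
      ∃ N, ∀ n, N ≤ n → a m ω n = 0 →
        PrimeIn (n + 1) (X (σ m ω n) n ω + 1) ∧
        PrimeIn (n + 2 * m + 1) (X (σ m ω n) n ω + 2 * m + 1) ∧
        (∀ j, 0 < j → j < 2 * m → ¬ PrimeIn (n + 1 + j) (X (σ m ω n) n ω + 1 + j)) ∧
        (∀ l : ℕ, l.Prime → l ≤ 2 * n →
          ¬ l ∣ (X (σ m ω n) n ω + 1) * (X (σ m ω n) n ω + 2 * m + 1)) ∧
        a m ω (σ m ω n) = 0 ∧ (σ m ω n + 1) * (σ m ω n + 2 * m + 1) ≤ 2 * n := by
  rw [ae_all_iff]
  intro m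
  by_cases hm0 : 1 ≤ m
  swap
  · filter_upwards with ω h
    exact absurd h hm0
  filter_upwards [Fn.good_ae hX m hm0] with ω hgood _
  obtain ⟨hmono, hzero, hsig⟩ := Run.run_chain hm0 (hrun m hm0 ω)
  set c : ℕ → ℕ := ch (T2H19.GR.hm m) (Rm m) (fun s b => X s b ω) 0 with hc
  obtain ⟨K, hK⟩ := eventually_atTop.1 hgood
  have hc0 : c 0 = 0 := rfl
  have hcpos : ∀ k, 1 ≤ c (k + 1) := by
    intro k
    have := hmono (Nat.succ_pos k)
    rw [hc0] at this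
    exact this
  have hcz : ∀ k, a m ω (c (k + 1)) = 0 := fun k => (hzero (c (k + 1)) (hcpos k)).2 ⟨k, rfl⟩
  constructor
  · intro N
    refine ⟨c (N + 1), ?_, hcz N⟩
    have := hmono.id_le (N + 1)
    simp only [id] at this
    omega
  · refine ⟨max (c (K + 2)) (2 * m + 1), fun n hn h0 => ?_⟩
    have hn1 : c (K + 2) ≤ n := (le_max_left _ _).trans hn
    have hn2 : 2 * m + 1 ≤ n := (le_max_right _ _).trans hn
    obtain ⟨i, hi⟩ := (hzero n (by omega)).1 h0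
    have hiK : K + 1 ≤ i := by
      by_contra hcon
      push Not at hcon
      have := hmono (show i + 1 < K + 2 by omega)
      omega
    have h5 := hK i (by omega)
    have hsi := hsig i
    rw [hi] at hsi h5
    rw [hsi]
    obtain ⟨⟨g1, g2⟩, g3⟩ := h5
    obtain ⟨k, rfl⟩ : ∃ k, i = k + 1 := ⟨i - 1, by omega⟩
    refine ⟨?_, ?_, ?_, ?_, hcz k, ?_⟩
    · exact Run.primeIn_of_free g1 (by omega) hn2 (Dvd.intro _ rfl)
    · exact Run.primeIn_of_free g1 le_rfl hn2 (Dvd.intro_left _ rfl)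
    · intro j hj0 hj hP
      apply g2
      refine ⟨j, hj0, hj, fun l hl hlb => hP l hl (by omega)⟩
    · exact g1
    · have h6 := Run.Rm_of_pos m (c (k + 1)) (hcpos k)
      rw [← h6]
      exact g3

end Pool.Agent.H531.GC
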