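import Pool.Graph.R_pool_sql_team_seeded_707910d6.T2H19.GR.Stm

/-! # All but finitely many stages are good, for events which depend on the stage

This is the library file `T2H19/GR/T_GL1.lean` (package GL1) with events `G s b y` (the zero `s`, the next zero `b` and its value). -/

set_option autoImplicit false

namespace Pool.Agent.H531.GC

open MeasureTheory ProbabilityTheory Finset Filter Topology Pool.Agent.T2H19.GR

namespace Gl2

variable {h R : ℕ → ℕ} {G : ℕ → ℕ → ℕ → Prop}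

/-- the next zero, as a function of all the numbers -/
def nv (h R : ℕ → ℕ) (v : ℕ × ℕ → ℕ) (s : ℕ) : ℕ := nx h R (fun s b => v (s, b)) s

/-- the chain of the zeros, as a function of all the numbers -/
def cv (h R : ℕ → ℕ) (v : ℕ × ℕ → ℕ) (s k : ℕ) : ℕ := ch h R (fun s b => v (s, b)) s k

/-- the stage `s` is bad -/
def Bad (h R : ℕ → ℕ) (G : ℕ → ℕ → ℕ → Prop) (v : ℕ × ℕ → ℕ) (s : ℕ) : Prop :=
  ¬ (G s (nv h R v s) (v (s, nv h R v s)) ∧ R s ≤ 2 * nv h R v s)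

/-- there is a bad stage in `[t, N)` in the chain started at `s` -/
def Ev (h R : ℕ → ℕ) (G : ℕ → ℕ → ℕ → Prop) (t N : ℕ) (s : ℕ) (v : ℕ × ℕ → ℕ) : Prop :=
  ∃ k, t ≤ cv h R v s k ∧ cv h R v s k < N ∧ Bad h R G v (cv h R v s k)

theorem cv_zero (v : ℕ × ℕ → ℕ) (s : ℕ) : cv h R v s 0 = s := rfl

theorem cv_succ (v : ℕ × ℕ → ℕ) (s k : ℕ) : cv h R v s (k + 1) = nv h R v (cv h R v s k) := rfl

theorem cv_succ' (v : ℕ × ℕ → ℕ) (s k : ℕ) : cv h R v s (k + 1) = cv h R v (nv h R v s) k := by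
  induction k with
  | zero => rfl
  | succ k ih => rw [cv_succ, ih, ← cv_succ]

theorem nv_gt (hZT : P_ZT) (hR : ∀ s, 0 < R s) (v : ℕ × ℕ → ℕ) (s : ℕ) :
    s < nv h R v s ∧ nv h R v s ≤ R s + (s + 1) := by
  have h1 := hZT.1 (fun b => h (v (s, b))) (s + 1) (R s)
  have h2 : s + 1 < nv h R v s := h1.2.2 (hR s)
  exact ⟨by omega, h1.2.1⟩

theorem nv_congr (hZT : P_ZT) {v w : ℕ × ℕ → ℕ} {s : ℕ} (hvw : ∀ b ≤ R s + (s + 1), v (s, b) = w (s, b)) :
    nv h R v s = nv h R w s :=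
  hZT.2.1 _ _ _ _ fun i hi => by simp only [hvw i hi]

theorem bad_congr (hZT : P_ZT) (hR : ∀ s, 0 < R s) {v w : ℕ × ℕ → ℕ} {s : ℕ}
    (hvw : ∀ b ≤ R s + (s + 1), v (s, b) = w (s, b)) : Bad h R G v s ↔ Bad h R G w s := by
  unfold Bad
  rw [nv_congr hZT hvw, hvw _ (nv_gt hZT hR w s).2]

theorem cv_ge (hZT : P_ZT) (hR : ∀ s, 0 < R s) (v : ℕ × ℕ → ℕ) (s k : ℕ) : s + k ≤ cv h R v s k := by
  induction k with
  | zero => exact le_of_eq rfl
  | succ k ih =>
    have := (nv_gt (h := h) hZT hR v (cv h R v s k)).1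
    rw [cv_succ]
    omega

/-- the coordinates which matter -/
def Co (R : ℕ → ℕ) (s N : ℕ) : Finset (ℕ × ℕ) :=
  (Ico s N).biUnion fun s' => (range (R s' + (s' + 1) + 1)).image (Prod.mk s')

theorem mem_Co {s N a b : ℕ} : (a, b) ∈ Co R s N ↔ s ≤ a ∧ a < N ∧ b ≤ R a + (a + 1) := by
  unfold Co
  simp only [mem_biUnion, mem_Ico, mem_image, mem_range, Prod.mk.injEq]
  constructor
  · rintro ⟨s', ⟨h1, h2⟩, b', h3, rfl, rfl⟩
    exact ⟨h1, h2, by omega⟩
  · rintro ⟨h1, h2, h3⟩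
    exact ⟨a, ⟨h1, h2⟩, b, by omega, rfl, rfl⟩

theorem Ev_false (hZT : P_ZT) (hR : ∀ s, 0 < R s) {t N s : ℕ} (hs : N ≤ s) (v : ℕ × ℕ → ℕ) :
    ¬ Ev h R G t N s v := by
  rintro ⟨k, -, h2, -⟩
  have := cv_ge (h := h) hZT hR v s k
  omega

theorem Ev_step {t N s : ℕ} (hs : s < N) (v : ℕ × ℕ → ℕ) :
    Ev h R G t N s v ↔ (t ≤ s ∧ Bad h R G v s) ∨ Ev h R G t N (nv h R v s) v := by
  constructor
  · rintro ⟨k, h1, h2, h3⟩
    cases k with
    | zero => exact Or.inl ⟨h1, h3⟩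
    | succ k =>
      rw [cv_succ'] at h1 h2 h3
      exact Or.inr ⟨k, h1, h2, h3⟩
  · rintro (⟨h1, h2⟩ | ⟨k, h1, h2, h3⟩)
    · exact ⟨0, h1, hs, h2⟩
    · rw [← cv_succ'] at h1 h2 h3
      exact ⟨k + 1, h1, h2, h3⟩

theorem Ev_congr (hZT : P_ZT) (hR : ∀ s, 0 < R s) {t N : ℕ} (m : ℕ) : ∀ s : ℕ, N ≤ s + m → ∀ v w : ℕ × ℕ → ℕ,
    (∀ i ∈ Co R s N, v i = w i) → (Ev h R G t N s v ↔ Ev h R G t N s w) := by
  induction m with
  | zero =>
    intro s hs v w _
    exact iff_of_false (Ev_false hZT hR (by omega) v) (Ev_false hZT hR (by omega) w)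
  | succ m ih =>
    intro s hs v w hvw
    by_cases hN : N ≤ s
    · exact iff_of_false (Ev_false hZT hR hN v) (Ev_false hZT hR hN w)
    · have hN' : s < N := by omega
      have h0 : ∀ b ≤ R s + (s + 1), v (s, b) = w (s, b) := fun b hb => hvw _ (mem_Co.2 ⟨le_rfl, hN', hb⟩)
      have h1 := nv_gt (h := h) hZT hR v s
      rw [Ev_step hN', Ev_step hN', bad_congr hZT hR h0, ← nv_congr hZT h0, ih (nv h R v s) (by omega) v w ?_]
      rintro ⟨a, b⟩ hab
      rw [mem_Co] at hab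
      exact hvw _ (mem_Co.2 ⟨by omega, hab.2.1, hab.2.2⟩)

section prob

variable {Ω : Type} [MeasurableSpace Ω] {P : Measure Ω} {X : ℕ → ℕ → Ω → ℕ} {M : ℕ → ℕ}

/-- the numbers at `ω` -/
def vv (X : ℕ → ℕ → Ω → ℕ) (ω : Ω) : ℕ × ℕ → ℕ := fun i => X i.1 i.2 ω

theorem gen (hGEN : P_GEN) (hM : Model M P X) (S T : Finset (ℕ × ℕ)) (hST : Disjoint S T)
    (Q₁ Q₂ : (ℕ × ℕ → ℕ) → Prop) (h1 : ∀ v w, (∀ i ∈ S, v i = w i) → (Q₁ v ↔ Q₁ w))
    (h2 : ∀ v w, (∀ i ∈ T, v i = w i) → (Q₂ v ↔ Q₂ w)) :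
    P.real {ω | Q₁ (vv X ω) ∧ Q₂ (vv X ω)} = P.real {ω | Q₁ (vv X ω)} * P.real {ω | Q₂ (vv X ω)} :=
  (hGEN Ω P (ℕ × ℕ) (fun i => X i.1 i.2) hM.prob (fun i => hM.meas i.1 i.2) hM.indep S T hST Q₁ Q₂ h1 h2).2.2

theorem meas (hGEN : P_GEN) (hM : Model M P X) (S : Finset (ℕ × ℕ)) (Q : (ℕ × ℕ → ℕ) → Prop)
    (h1 : ∀ v w, (∀ i ∈ S, v i = w i) → (Q v ↔ Q w)) : MeasurableSet {ω | Q (vv X ω)} :=
  (hGEN Ω P (ℕ × ℕ) (fun i => X i.1 i.2) hM.prob (fun i => hM.meas i.1 i.2) hM.indep S ∅ (disjoint_empty_right S)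
    Q (fun _ => True) h1 (fun _ _ _ => Iff.rfl)).1

/-- one step of the induction -/
theorem step (hZT : P_ZT) (hGEN : P_GEN) (hM : Model M P X) (hR : ∀ s, 0 < R s) {t N s : ℕ} (hs : s < N) (β : ℝ)
    (hβ0 : 0 ≤ β) (hβ : ∀ s', s < s' → (t ≤ s → R s ≤ 2 * s') → P.real {ω | Ev h R G t N s' (vv X ω)} ≤ β) :
    P.real {ω | Ev h R G t N s (vv X ω)} ≤ P.real {ω | t ≤ s ∧ Bad h R G (vv X ω) s} + β := by
  classical
  have := hM.prob
  set D : ℕ → (ℕ × ℕ → ℕ) → Prop := fun s' v => nv h R v s = s' ∧ (t ≤ s → ¬ Bad h R G v s) with hD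
  have hDc : ∀ s', ∀ v w, (∀ i ∈ Co R s (s + 1), v i = w i) → (D s' v ↔ D s' w) := by
    intro s' v w hvw
    have h0 : ∀ b ≤ R s + (s + 1), v (s, b) = w (s, b) := fun b hb => hvw _ (mem_Co.2 ⟨le_rfl, by omega, hb⟩)
    simp only [hD]
    rw [bad_congr hZT hR h0, nv_congr hZT h0]
  have hsub : {ω | Ev h R G t N s (vv X ω)} ⊆ {ω | t ≤ s ∧ Bad h R G (vv X ω) s} ∪
      ⋃ s' ∈ Ioc s (R s + (s + 1)), {ω | D s' (vv X ω) ∧ Ev h R G t N s' (vv X ω)} := by
    intro ω hω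
    have hω' : Ev h R G t N s (vv X ω) := hω
    rw [Ev_step hs] at hω'
    by_cases hb : t ≤ s ∧ Bad h R G (vv X ω) s
    · exact Or.inl hb
    · right
      rcases hω' with h1 | h1
      · exact absurd h1 hb
      · have h2 := nv_gt (h := h) hZT hR (vv X ω) s
        simp only [Set.mem_iUnion]
        refine ⟨nv h R (vv X ω) s, mem_Ioc.2 h2, ⟨rfl, fun h3 h4 => hb ⟨h3, h4⟩⟩, h1⟩
  have hsum : ∀ s' ∈ Ioc s (R s + (s + 1)), P.real {ω | D s' (vv X ω) ∧ Ev h R G t N s' (vv X ω)} ≤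
      P.real {ω | D s' (vv X ω)} * β := by
    intro s' hs'
    rw [mem_Ioc] at hs'
    by_cases hex : ∃ ω, D s' (vv X ω)
    · have hdisj : Disjoint (Co R s (s + 1)) (Co R s' N) := by
        rw [Finset.disjoint_left]
        rintro ⟨a, b⟩ h1 h2
        rw [mem_Co] at h1 h2
        omega
      rw [gen hGEN hM _ _ hdisj (D s') (Ev h R G t N s') (hDc s') (Ev_congr hZT hR N s' (by omega))]
      apply mul_le_mul_of_nonneg_left _ measureReal_nonneg
      apply hβ s' hs'.1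
      intro hts
      obtain ⟨ω, hω1, hω2⟩ := hex
      have := hω2 hts
      unfold Bad at this
      push Not at this
      rw [← hω1]
      exact this.2
    · have h1 : {ω | D s' (vv X ω) ∧ Ev h R G t N s' (vv X ω)} = ∅ := by
        ext ω
        simp only [Set.mem_ofPred_eq, Set.mem_empty_iff_false, iff_false]
        exact fun hω => hex ⟨ω, hω.1⟩
      rw [h1, measureReal_empty]
      exact mul_nonneg measureReal_nonneg hβ0
  have hpart : ∑ s' ∈ Ioc s (R s + (s + 1)), P.real {ω | D s' (vv X ω)} ≤ 1 := by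
    rw [← measureReal_biUnion_finset]
    · exact measureReal_le_one
    · intro i _ j _ hij
      rw [Function.onFun, Set.disjoint_left]
      intro ω h1 h2
      exact hij (h1.1.symm.trans h2.1)
    · intro i _
      exact meas hGEN hM _ _ (hDc i)
  calc P.real {ω | Ev h R G t N s (vv X ω)} ≤ P.real ({ω | t ≤ s ∧ Bad h R G (vv X ω) s} ∪
      ⋃ s' ∈ Ioc s (R s + (s + 1)), {ω | D s' (vv X ω) ∧ Ev h R G t N s' (vv X ω)}) := measureReal_mono hsub
    _ ≤ P.real {ω | t ≤ s ∧ Bad h R G (vv X ω) s} +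
      P.real (⋃ s' ∈ Ioc s (R s + (s + 1)), {ω | D s' (vv X ω) ∧ Ev h R G t N s' (vv X ω)}) := measureReal_union_le _ _
    _ ≤ P.real {ω | t ≤ s ∧ Bad h R G (vv X ω) s} +
      ∑ s' ∈ Ioc s (R s + (s + 1)), P.real {ω | D s' (vv X ω) ∧ Ev h R G t N s' (vv X ω)} := by
        gcongr
        exact measureReal_biUnion_finset_le _ _
    _ ≤ P.real {ω | t ≤ s ∧ Bad h R G (vv X ω) s} + ∑ s' ∈ Ioc s (R s + (s + 1)), P.real {ω | D s' (vv X ω)} * β := by
        gcongr with s' hs'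
        exact hsum s' hs'
    _ = P.real {ω | t ≤ s ∧ Bad h R G (vv X ω) s} + (∑ s' ∈ Ioc s (R s + (s + 1)), P.real {ω | D s' (vv X ω)}) * β := by
        rw [Finset.sum_mul]
    _ ≤ P.real {ω | t ≤ s ∧ Bad h R G (vv X ω) s} + 1 * β := by gcongr
    _ = _ := by rw [one_mul]

/-- the bound for the chain started at `s` -/
theorem bound (hZT : P_ZT) (hGEN : P_GEN) (hM : Model M P X) (hR : ∀ s, 0 < R s) {C r K : ℝ} {s₁ : ℕ}
    (hr : r = (3 / 2 : ℝ) ^ (-(1 / 2) : ℝ)) (hK0 : 0 ≤ K) (hK : C + K * r = K)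
    (hRb : ∀ s : ℕ, s₁ ≤ s → 2 * (s : ℝ) ^ (3 / 2 : ℝ) ≤ R s)
    (hC : ∀ s : ℕ, s₁ ≤ s → P.real {ω | Bad h R G (vv X ω) s} ≤ C * Real.log s ^ (-(1 / 2) : ℝ))
    {t : ℕ} (ht : s₁ ≤ t) (ht3 : 3 ≤ t) (N m : ℕ) :
    ∀ s : ℕ, N ≤ s + m → P.real {ω | Ev h R G t N s (vv X ω)} ≤
      K * Real.log ((max s t : ℕ) : ℝ) ^ (-(1 / 2) : ℝ) := by
  have := hM.prob
  have hpos : ∀ x : ℕ, 3 ≤ x → 0 < Real.log (x : ℝ) := by
    intro x hx
    apply Real.log_pos
    have : (3 : ℝ) ≤ x := by exact_mod_cast hx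
    linarith
  have hnn : ∀ x : ℕ, 0 ≤ Real.log (x : ℝ) ^ (-(1 / 2) : ℝ) := fun x =>
    Real.rpow_nonneg (Real.log_natCast_nonneg x) _
  have hmono : ∀ x y : ℕ, 3 ≤ x → x ≤ y → Real.log (y : ℝ) ^ (-(1 / 2) : ℝ) ≤ Real.log (x : ℝ) ^ (-(1 / 2) : ℝ) := by
    intro x y hx hxy
    apply Real.rpow_le_rpow_of_nonpos (hpos x hx) _ (by norm_num)
    apply Real.log_le_log _ (by exact_mod_cast hxy)
    have : (3 : ℝ) ≤ x := by exact_mod_cast hx
    linarith
  have hempty : ∀ s, N ≤ s → P.real {ω | Ev h R G t N s (vv X ω)} ≤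
      K * Real.log ((max s t : ℕ) : ℝ) ^ (-(1 / 2) : ℝ) := by
    intro s hs
    have h1 : {ω | Ev h R G t N s (vv X ω)} = ∅ := by
      ext ω
      simp only [Set.mem_ofPred_eq, Set.mem_empty_iff_false, iff_false]
      exact Ev_false hZT hR hs _
    rw [h1, measureReal_empty]
    exact mul_nonneg hK0 (hnn _)
  induction m with
  | zero => exact fun s hs => hempty s (by omega)
  | succ m ih =>
    intro s hs
    by_cases hN : N ≤ s
    · exact hempty s hN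
    · have hN' : s < N := by omega
      by_cases hts : t ≤ s
      · have hs3 : 3 ≤ s := ht3.trans hts
        have hs1 : s₁ ≤ s := ht.trans hts
        have hmax : max s t = s := max_eq_left hts
        have h1 := step (G := G) (t := t) hZT hGEN hM hR hN' (K * (r * Real.log (s : ℝ) ^ (-(1 / 2) : ℝ)))
          (mul_nonneg hK0 (mul_nonneg (by rw [hr]; positivity) (hnn s))) (by
            intro s' hs' hRs
            refine (ih s' (by omega)).trans ?_
            apply mul_le_mul_of_nonneg_left _ hK0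
            refine (hmono s' _ (by omega) (le_max_left _ _)).trans ?_
            rw [hr, ← Real.mul_rpow (by norm_num) (hpos s hs3).le]
            apply Real.rpow_le_rpow_of_nonpos (mul_pos (by norm_num) (hpos s hs3)) _ (by norm_num)
            have hs0 : (0 : ℝ) < s := by
              have : (3 : ℝ) ≤ s := by exact_mod_cast hs3
              linarith
            rw [← Real.log_rpow hs0]
            apply Real.log_le_log (Real.rpow_pos_of_pos hs0 _)
            have h2 := hRb s hs1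
            have h3 : (R s : ℝ) ≤ 2 * s' := by exact_mod_cast hRs hts
            linarith)
        rw [hmax]
        refine h1.trans ?_
        have h2 : P.real {ω | t ≤ s ∧ Bad h R G (vv X ω) s} ≤ C * Real.log s ^ (-(1 / 2) : ℝ) := by
          refine le_trans (measureReal_mono fun ω hω => ?_) (hC s hs1)
          exact hω.2
        calc _ ≤ C * Real.log s ^ (-(1 / 2) : ℝ) + K * (r * Real.log (s : ℝ) ^ (-(1 / 2) : ℝ)) := by linarith
          _ = (C + K * r) * Real.log (s : ℝ) ^ (-(1 / 2) : ℝ) := by ring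
          _ = _ := by rw [hK]
      · have hmax : max s t = t := max_eq_right (by omega)
        have h1 := step (G := G) (t := t) hZT hGEN hM hR hN' (K * Real.log (t : ℝ) ^ (-(1 / 2) : ℝ))
          (mul_nonneg hK0 (hnn t)) (by
            intro s' hs' _
            refine (ih s' (by omega)).trans ?_
            exact mul_le_mul_of_nonneg_left (hmono t _ ht3 (le_max_right _ _)) hK0)
        rw [hmax]
        refine h1.trans ?_
        have h2 : {ω | t ≤ s ∧ Bad h R G (vv X ω) s} = ∅ := by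
          ext ω
          simp only [Set.mem_ofPred_eq, Set.mem_empty_iff_false, iff_false]
          exact fun hω => hts hω.1
        rw [h2, measureReal_empty, zero_add]

end prob

end Gl2

open Gl2 in
/-- all but finitely many stages are good -/
theorem gl2 (hZT : P_ZT) (hGEN : P_GEN) {Ω : Type} [MeasurableSpace Ω] {M : ℕ → ℕ} {P : Measure Ω} {X : ℕ → ℕ → Ω → ℕ}
    (hM : Model M P X) (h R : ℕ → ℕ) (G : ℕ → ℕ → ℕ → Prop) (C₀ : ℝ) (s₁ : ℕ) (hR : ∀ s, 0 < R s)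
    (hRb : ∀ s : ℕ, s₁ ≤ s → 2 * (s : ℝ) ^ (3 / 2 : ℝ) ≤ R s)
    (hC₀ : ∀ s : ℕ, s₁ ≤ s → P.real {ω | ¬ (G s (nx h R (fun s b => X s b ω) s)
      (X s (nx h R (fun s b => X s b ω) s) ω) ∧
      R s ≤ 2 * nx h R (fun s b => X s b ω) s)} ≤ C₀ * Real.log s ^ (-(1 / 2) : ℝ)) (s₀ : ℕ) :
    ∀ᵐ ω ∂P, ∀ᶠ k : ℕ in atTop, G (ch h R (fun s b => X s b ω) s₀ k) (ch h R (fun s b => X s b ω) s₀ (k + 1))
      (X (ch h R (fun s b => X s b ω) s₀ k) (ch h R (fun s b => X s b ω) s₀ (k + 1)) ω) := by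
  have := hM.prob
  set r : ℝ := (3 / 2 : ℝ) ^ (-(1 / 2) : ℝ) with hr
  have hr1 : r < 1 := Real.rpow_lt_one_of_one_lt_of_neg (by norm_num) (by norm_num)
  set C : ℝ := max C₀ 0 with hCdef
  set K : ℝ := C / (1 - r) with hKdef
  have hC0 : 0 ≤ C := le_max_right _ _
  have hK0 : 0 ≤ K := div_nonneg hC0 (by linarith)
  have hK : C + K * r = K := by
    have h1 : K * (1 - r) = C := div_mul_cancel₀ _ (by linarith)
    linarith
  have hC : ∀ s : ℕ, s₁ ≤ s → P.real {ω | Bad h R G (vv X ω) s} ≤ C * Real.log s ^ (-(1 / 2) : ℝ) := by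
    intro s hs
    refine (hC₀ s hs).trans ?_
    exact mul_le_mul_of_nonneg_right (le_max_left _ _) (Real.rpow_nonneg (Real.log_natCast_nonneg s) _)
  -- the probability of a bad stage after `t`
  have hb : ∀ t : ℕ, s₁ ≤ t → 3 ≤ t → s₀ ≤ t → P (⋃ N, {ω | Ev h R G t N s₀ (vv X ω)}) ≤
      ENNReal.ofReal (K * Real.log (t : ℝ) ^ (-(1 / 2) : ℝ)) := by
    intro t ht1 ht3 ht0
    have hmon : Monotone fun N => {ω | Ev h R G t N s₀ (vv X ω)} := by
      intro N N' hN ω hω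
      obtain ⟨k, h1, h2, h3⟩ := hω
      exact ⟨k, h1, by omega, h3⟩
    rw [hmon.measure_iUnion]
    refine iSup_le fun N => ?_
    have h1 := bound (G := G) hZT hGEN hM hR hr hK0 hK hRb hC ht1 ht3 N N s₀ (by omega)
    rw [max_eq_right ht0] at h1
    rw [← ofReal_measureReal]
    exact ENNReal.ofReal_le_ofReal h1
  rw [ae_iff]
  have hlim : Tendsto (fun t : ℕ => ENNReal.ofReal (K * Real.log (t : ℝ) ^ (-(1 / 2) : ℝ))) atTop (𝓝 0) := by
    have h1 : Tendsto (fun t : ℕ => Real.log (t : ℝ) ^ (-(1 / 2) : ℝ)) atTop (𝓝 0) :=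
      (tendsto_rpow_neg_atTop (by norm_num : (0 : ℝ) < 1 / 2)).comp
        (Real.tendsto_log_atTop.comp tendsto_natCast_atTop_atTop)
    have h2 := (h1.const_mul K)
    rw [mul_zero] at h2
    have h3 := ENNReal.tendsto_ofReal h2
    rwa [ENNReal.ofReal_zero] at h3
  refine le_antisymm (ge_of_tendsto hlim ?_) zero_le
  filter_upwards [eventually_ge_atTop s₁, eventually_ge_atTop 3, eventually_ge_atTop s₀] with t ht1 ht3 ht0
  refine le_trans (measure_mono fun ω hω => ?_) (hb t ht1 ht3 ht0)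
  by_contra hcon
  apply hω
  filter_upwards [eventually_ge_atTop t] with k hk
  by_contra hG
  apply hcon
  rw [Set.mem_iUnion]
  refine ⟨cv h R (vv X ω) s₀ k + 1, k, ?_, Nat.lt_succ_self _, ?_⟩
  · have := cv_ge (h := h) hZT hR (vv X ω) s₀ k
    omega
  · intro h1
    exact hG h1.1

end Pool.Agent.H531.GC
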