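import Mathlib

/-! # Sequences with `c (k + 1) ~ c k ^ p` -/

set_option autoImplicit false

namespace Pool.Agent.H531.GC

open Filter Topology

namespace Mills

/-- the error of the logarithms -/
theorem key (p : ℕ) (hp : 2 ≤ p) (l : ℕ → ℝ) (he : Tendsto (fun k => l (k + 1) - p * l k) atTop (𝓝 0)) :
    ∃ L : ℝ, Tendsto (fun k => l k - p ^ k * L) atTop (𝓝 0) := by
  have hp0 : (0 : ℝ) < p := by
    have : (0 : ℕ) < p := by omega
    exact_mod_cast this
  have hp2 : (2 : ℝ) ≤ p := by exact_mod_cast hp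
  have hpk : ∀ k : ℕ, (0 : ℝ) < (p : ℝ) ^ k := fun k => pow_pos hp0 k
  set g : ℕ → ℝ := fun k => l k / (p : ℝ) ^ k with hg
  have hstep : ∀ k, g (k + 1) - g k = (l (k + 1) - p * l k) / (p : ℝ) ^ (k + 1) := by
    intro k
    simp only [hg]
    have := (hpk k).ne'
    rw [pow_succ]
    field_simp
  have hbd : ∀ ε : ℝ, 0 < ε → ∀ᶠ k in atTop, ∀ j, |g (k + j + 1) - g (k + j)| ≤
      (ε / (p : ℝ) ^ (k + 1)) * (1 / (p : ℝ)) ^ j := by
    intro ε hε
    have h1 := (he.abs).eventually (eventually_le_nhds (by simpa using hε))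
    obtain ⟨N, hN⟩ := eventually_atTop.1 h1
    filter_upwards [eventually_ge_atTop N] with k hk j
    rw [hstep, abs_div, abs_of_pos (hpk _)]
    have h2 := hN (k + j) (by omega)
    have e : (ε / (p : ℝ) ^ (k + 1)) * (1 / (p : ℝ)) ^ j = ε / (p : ℝ) ^ (k + j + 1) := by
      rw [one_div, inv_pow, show k + j + 1 = (k + 1) + j by ring, pow_add (p : ℝ) (k + 1) j]
      have h3 := (hpk j).ne'
      have h4 := (hpk (k + 1)).ne'
      field_simp
    rw [e]
    exact div_le_div_of_nonneg_right h2 (hpk _).le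
  have hr : (1 : ℝ) / p < 1 := by
    rw [div_lt_one hp0]
    linarith
  -- the limit
  obtain ⟨N, hN⟩ := (hbd 1 one_pos).exists
  have hc : CauchySeq (fun j => g (N + j)) := by
    refine cauchySeq_of_le_geometric (1 / (p : ℝ)) (1 / (p : ℝ) ^ (N + 1)) hr ?_
    intro j
    rw [dist_comm, Real.dist_eq]
    exact hN j
  obtain ⟨L, hL⟩ := cauchySeq_tendsto_of_complete hc
  have hL' : Tendsto g atTop (𝓝 L) := by
    have h1 : Tendsto (fun j => g (j + N)) atTop (𝓝 L) := by
      refine hL.congr fun j => ?_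
      rw [add_comm]
    exact (tendsto_add_atTop_iff_nat N).1 h1
  refine ⟨L, ?_⟩
  rw [Metric.tendsto_atTop]
  intro ε hε
  obtain ⟨M, hM⟩ := eventually_atTop.1 (hbd (ε / 2) (by linarith))
  refine ⟨M, fun k hk => ?_⟩
  have h1 : Tendsto (fun j => g (k + j)) atTop (𝓝 L) := by
    have h2 : Tendsto (fun j : ℕ => k + j) atTop atTop :=
      tendsto_atTop_mono (fun j => Nat.le_add_left j k) tendsto_id
    exact hL'.comp h2
  have h3 := dist_le_of_le_geometric_of_tendsto₀ (1 / (p : ℝ)) (ε / 2 / (p : ℝ) ^ (k + 1)) hr (by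
    intro j
    rw [dist_comm, Real.dist_eq]
    exact hM k hk j) h1
  rw [add_zero, Real.dist_eq] at h3
  have h4 : ε / 2 / (p : ℝ) ^ (k + 1) / (1 - 1 / p) ≤ ε / 2 / (p : ℝ) ^ k := by
    have h5 : (0 : ℝ) < 1 - 1 / p := by linarith
    rw [div_le_iff₀ h5, pow_succ]
    have h6 := (hpk k).ne'
    have h7 : ε / 2 / (p : ℝ) ^ k * (1 - 1 / p) - ε / 2 / ((p : ℝ) ^ k * p) = ε / 2 / (p : ℝ) ^ k * (1 - 2 / p) := by
      field_simp
      ring
    have h8 : 0 ≤ 1 - 2 / (p : ℝ) := by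
      rw [sub_nonneg, div_le_one hp0]
      exact hp2
    have h9 : 0 ≤ ε / 2 / (p : ℝ) ^ k * (1 - 2 / p) := by positivity
    linarith
  have h10 : |g k - L| ≤ ε / 2 / (p : ℝ) ^ k := h3.trans h4
  have h11 : l k - p ^ k * L = p ^ k * (g k - L) := by
    simp only [hg]
    have := (hpk k).ne'
    field_simp
  rw [Real.dist_eq, sub_zero, h11, abs_mul, abs_of_pos (hpk k)]
  have h12 := mul_le_mul_of_nonneg_left h10 (hpk k).le
  rw [mul_div_cancel₀ _ (hpk k).ne'] at h12
  linarith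

/-- a sequence of positive integers with `c (k + 1) ~ c k ^ p` tending to infinity is asymptotic to `θ ^ (p ^ k)` -/
theorem mills (p : ℕ) (hp : 2 ≤ p) (c : ℕ → ℕ) (hpos : ∀ k, 1 ≤ c k) (hinf : Tendsto c atTop atTop)
    (h : Tendsto (fun k => (c (k + 1) : ℝ) / (c k : ℝ) ^ p) atTop (𝓝 1)) :
    ∃ θ : ℝ, 1 < θ ∧ Tendsto (fun k => (c k : ℝ) / θ ^ (p ^ k)) atTop (𝓝 1) := by
  have hc : ∀ k, (0 : ℝ) < c k := fun k => by exact_mod_cast hpos k
  obtain ⟨L, hL⟩ := key p hp (fun k => Real.log (c k)) (by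
    have h1 := (Real.continuousAt_log (one_ne_zero)).tendsto.comp h
    rw [Real.log_one] at h1
    refine h1.congr fun k => ?_
    simp only [Function.comp_apply]
    rw [Real.log_div (hc _).ne' (pow_pos (hc k) p).ne', Real.log_pow])
  have hL0 : 0 < L := by
    by_contra hcon
    push Not at hcon
    have h1 : Tendsto (fun k => Real.log (c k : ℝ)) atTop atTop :=
      Real.tendsto_log_atTop.comp (tendsto_natCast_atTop_atTop.comp hinf)
    have h2 : Tendsto (fun k => Real.log (c k : ℝ) - p ^ k * L) atTop atTop := by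
      refine tendsto_atTop_mono (fun k => ?_) h1
      have : (p : ℝ) ^ k * L ≤ 0 := mul_nonpos_of_nonneg_of_nonpos (by positivity) hcon
      linarith
    exact not_tendsto_nhds_of_tendsto_atTop h2 0 hL
  refine ⟨Real.exp L, by rw [Real.one_lt_exp_iff]; exact hL0, ?_⟩
  have h1 := (Real.continuous_exp.tendsto 0).comp hL
  rw [Real.exp_zero] at h1
  refine h1.congr fun k => ?_
  simp only [Function.comp_apply]
  rw [Real.exp_sub, Real.exp_log (hc k), ← Real.exp_nat_mul]
  push_cast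
  rfl

end Mills

end Pool.Agent.H531.GC
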