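import Pool.Agent.H531.GC.Sl2
import Pool.Agent.H531.GC.Gl2
import Pool.Agent.H531.GC.Mills
import Pool.Graph.R_pool_sql_team_seeded_707910d6.T2H19.GR.All

/-! # The growth of the zeros in the random model of `MP_e7655a_nt` -/

set_option autoImplicit false

namespace Pool.Agent.H531.GC

open MeasureTheory ProbabilityTheory Finset Filter Topology Pool.Agent.T2H19.GR

namespace Grow

lemma half_le {K A a : ℕ} (hK : 2 ≤ K) (h2a : (K - 1) * A ≤ K * a) : A ≤ 2 * a := by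
  have e1 : K * A ≤ K * a + A := by
    have e2 : K * A = (K - 1) * A + A := by
      obtain ⟨k, rfl⟩ : ∃ k, K = k + 1 := ⟨K - 1, by omega⟩
      rw [Nat.add_sub_cancel]
      ring
    omega
  by_contra hcon
  push Not at hcon
  have e3 : K * (2 * a + 1) ≤ K * A := Nat.mul_le_mul_left K (by omega)
  have e4 : K * (A - a) ≤ A := by
    rw [Nat.mul_sub]
    omega
  have e5 : 2 * (A - a) ≤ K * (A - a) := Nat.mul_le_mul_right _ hK
  omega

variable {Ω : Type} [MeasurableSpace Ω]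

/-- the good event: the next zero `b` after `s` is at least `(1 - 1 / K) R s` -/
def GK (p K s b y : ℕ) : Prop := Free b (T2H19.GR.hp p y) ∧ (K - 1) * Rp p s ≤ K * b

/-- one stage of the model -/
lemma stg {p : ℕ} (hp : p.Prime) {P : Measure Ω} {X : ℕ → ℕ → Ω → ℕ}
    (hX : Model (fun b => (b ^ p).factorial) P X) (K : ℕ) (hK : 2 ≤ K) :
    ∀ᶠ s : ℕ in atTop, 1 - (1 + K / 2) * Real.log (Rp p s) ^ (-(1 / 2) : ℝ) ≤
      P.real {ω | GK p K s (nx (T2H19.GR.hp p) (Rp p) (fun s b => X s b ω) s)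
        (X s (nx (T2H19.GR.hp p) (Rp p) (fun s b => X s b ω) s) ω)} := by
  have hNT := T_NT (T_FREE T_CRT) (T_DA1 T_CRT) T_DA2
  have hRt : Tendsto (Rp p) atTop atTop :=
    tendsto_atTop_mono (fun s => (Nat.le_succ s).trans (Run.Rp_ge p s hp.two_le)) tendsto_id
  have e1 := hRt.eventually (hNT (T2H19.GR.hp p) p (T_ADM1 p hp) hp.one_lt.le)
  have e2 := hRt.eventually (PkgSTG.logs p)
  filter_upwards [e1, e2, eventually_ge_atTop 3] with s h1 h2 hs
  have hR0 := Run.Rp_ge p s hp.two_le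
  have := hX.prob
  have hKr : (2 : ℝ) ≤ K := by exact_mod_cast hK
  have hρ0 : 0 ≤ Real.log (Rp p s) ^ (-(1 / 2) : ℝ) := Real.rpow_nonneg (Real.log_natCast_nonneg _) _
  have key := stage2 T_ZT (T_DL T_ZT) T_GEN K hK Ω P (fun b => X s b) (fun b => (b ^ p).factorial) (T2H19.GR.hp p)
    hX.prob (fun b => hX.meas s b)
    (hX.indep.precomp (g := fun b : ℕ => (s, b)) (fun a b hab => (Prod.ext_iff.1 hab).2))
    (fun b ω => hX.lt s b ω) (Rp p s) (2 * Rp p s) (zz p (Rp p s))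
    ((1 + K / 2) * Real.log (Rp p s) ^ (-(1 / 2) : ℝ)) 1 (fun b y => Free b (T2H19.GR.hp p y))
    (by omega) h2.1 h2.2 (mul_nonneg (by positivity) hρ0) zero_le_one le_rfl (fun _ _ h => h)
    (fun a b ha1 ha2 hab hb => by
      have ha1' := half_le hK ha1
      have hb2 : 2 ≤ b := by omega
      constructor
      · rw [PkgSTG.law_un hX s b (fun y => Dang (zz p (Rp p s)) (Nat.sqrt (Rp p s)) a b (T2H19.GR.hp p y)),
          PkgSTG.law_un hX s b (fun y => Free b (T2H19.GR.hp p y))]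
        have h3 := h1 a b _ ha1' ha2 hab hb (PkgSTG.allDvd hp.two_le hb2)
        have h4 : 0 ≤ un ((b ^ p).factorial) (fun y => Dang (zz p (Rp p s)) (Nat.sqrt (Rp p s)) a b (T2H19.GR.hp p y)) :=
          Fin.un_nonneg _ _
        have h5 : (2 : ℝ) * K * (zz p (Rp p s)) / (Rp p s) = K / 2 * (4 * (zz p (Rp p s)) / (Rp p s)) := by ring
        rw [h5]
        have h6 : (0 : ℝ) ≤ 4 * (zz p (Rp p s)) / (Rp p s) := by positivity
        have h7 : (K : ℝ) / 2 * (4 * (zz p (Rp p s)) / (Rp p s)) ≤ K / 2 *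
            (Real.log (Rp p s) ^ (-(1 / 2) : ℝ) * un ((b ^ p).factorial) fun y => Free b (T2H19.GR.hp p y)) :=
          mul_le_mul_of_nonneg_left (by linarith) (by positivity)
        have h8 : (1 + (K : ℝ) / 2) * Real.log (Rp p s) ^ (-(1 / 2) : ℝ) *
            (un ((b ^ p).factorial) fun y => Free b (T2H19.GR.hp p y)) =
            Real.log (Rp p s) ^ (-(1 / 2) : ℝ) * (un ((b ^ p).factorial) fun y => Free b (T2H19.GR.hp p y)) +
            K / 2 * (Real.log (Rp p s) ^ (-(1 / 2) : ℝ) * un ((b ^ p).factorial) fun y => Free b (T2H19.GR.hp p y)) := by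
          ring
        rw [h8]
        linarith
      · rw [one_mul])
    (s + 1) (Rp p s) le_rfl (by omega)
  rw [sub_self, mul_zero, zero_div, sub_zero, one_mul] at key
  exact key

/-- almost surely the next zero is at least `(1 - 1 / K) R`, for all but finitely many stages -/
lemma grow_ae {p : ℕ} (hp : p.Prime) {P : Measure Ω} {X : ℕ → ℕ → Ω → ℕ}
    (hX : Model (fun b => (b ^ p).factorial) P X) (K : ℕ) (hK : 2 ≤ K) :
    ∀ᵐ ω ∂P, ∀ᶠ k : ℕ in atTop, (K - 1) * Rp p (ch (T2H19.GR.hp p) (Rp p) (fun s b => X s b ω) 2 k) ≤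
      K * ch (T2H19.GR.hp p) (Rp p) (fun s b => X s b ω) 2 (k + 1) := by
  have := hX.prob
  obtain ⟨s₁, hs₁⟩ := eventually_atTop.1 (stg hp hX K hK)
  have hKr : (2 : ℝ) ≤ K := by exact_mod_cast hK
  have h1 := gl2 T_ZT T_GEN hX (T2H19.GR.hp p) (Rp p) (fun s b y => GK p K s b y) (1 + K / 2) (max s₁ 4)
    (fun s => Run.Rp_pos p s hp.two_le)
    (fun s hs => Run.Rp_big p s hp.two_le ((le_max_right _ _).trans hs)) (by
      intro s hs
      have h2 := hs₁ s ((le_max_left _ _).trans hs)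
      have hs4 : 4 ≤ s := (le_max_right _ _).trans hs
      have h3 := probReal_compl_eq_one_sub (μ := P) (Fin.meas_ev T_ZT T_GEN hX (T2H19.GR.hp p) (Rp p)
        (fun n y => GK p K s n y) s)
      have h4 : P.real {ω | ¬ (GK p K s (nx (T2H19.GR.hp p) (Rp p) (fun s b => X s b ω) s)
          (X s (nx (T2H19.GR.hp p) (Rp p) (fun s b => X s b ω) s) ω) ∧
          Rp p s ≤ 2 * nx (T2H19.GR.hp p) (Rp p) (fun s b => X s b ω) s)} ≤
          (1 + K / 2) * Real.log (Rp p s) ^ (-(1 / 2) : ℝ) := by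
        have h5 : {ω | ¬ (GK p K s (nx (T2H19.GR.hp p) (Rp p) (fun s b => X s b ω) s)
          (X s (nx (T2H19.GR.hp p) (Rp p) (fun s b => X s b ω) s) ω) ∧
          Rp p s ≤ 2 * nx (T2H19.GR.hp p) (Rp p) (fun s b => X s b ω) s)} ⊆
          {ω | GK p K s (nx (T2H19.GR.hp p) (Rp p) (fun s b => X s b ω) s)
          (X s (nx (T2H19.GR.hp p) (Rp p) (fun s b => X s b ω) s) ω)}ᶜ := by
          intro ω hω hG
          exact hω ⟨hG, half_le hK hG.2⟩
        refine (measureReal_mono h5 (measure_ne_top _ _)).trans ?_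
        rw [h3]
        linarith
      refine h4.trans ?_
      have hs' : (4 : ℝ) ≤ s := by exact_mod_cast hs4
      refine mul_le_mul_of_nonneg_left ?_ (by linarith)
      apply Real.rpow_le_rpow_of_nonpos (Real.log_pos (by linarith)) _ (by norm_num)
      apply Real.log_le_log (by linarith)
      have := Run.Rp_ge p s hp.two_le
      exact_mod_cast (by omega : s ≤ Rp p s)) 2
  filter_upwards [h1] with ω hω
  filter_upwards [hω] with k hk
  exact hk.2

/-- the ratio tends to `1` -/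
lemma ratio {p : ℕ} (hp : p.Prime) (c : ℕ → ℕ) (hc : Tendsto c atTop atTop) (hpos : ∀ k, 2 ≤ c k)
    (hup : ∀ k, c (k + 1) ≤ Rp p (c k) + (c k + 1))
    (hlow : ∀ K : ℕ, 2 ≤ K → ∀ᶠ k : ℕ in atTop, (K - 1) * Rp p (c k) ≤ K * c (k + 1)) :
    Tendsto (fun k => (c (k + 1) : ℝ) / (c k : ℝ) ^ p) atTop (𝓝 1) := by
  have hcr : Tendsto (fun k => (c k : ℝ)) atTop atTop := tendsto_natCast_atTop_atTop.comp hc
  have hc0 : ∀ k, (0 : ℝ) < c k := fun k => by
    have := hpos k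
    exact_mod_cast (by omega : 0 < c k)
  have hR : ∀ k, ((Rp p (c k) : ℕ) : ℝ) = ((c k : ℝ) + 1) ^ p - 1 := by
    intro k
    rw [Run.Rp_of_pos p (c k) (by have := hpos k; omega), Nat.cast_sub (Nat.one_le_pow _ _ (by omega))]
    push_cast
    ring
  have hinv : Tendsto (fun k => 1 / (c k : ℝ)) atTop (𝓝 0) := by
    simp only [one_div]
    exact tendsto_inv_atTop_zero.comp hcr
  -- upper bound
  have h1 : Tendsto (fun k => (1 + 1 / (c k : ℝ)) ^ p + 1 / (c k : ℝ)) atTop (𝓝 1) := by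
    have e1 := ((hinv.const_add 1).pow p).add hinv
    simpa using e1
  have hle : ∀ k, (c (k + 1) : ℝ) / (c k : ℝ) ^ p ≤ (1 + 1 / (c k : ℝ)) ^ p + 1 / (c k : ℝ) := by
    intro k
    have e1 : (c (k + 1) : ℝ) ≤ ((c k : ℝ) + 1) ^ p + c k := by
      have e2 : (c (k + 1) : ℝ) ≤ (Rp p (c k) : ℕ) + ((c k : ℝ) + 1) := by exact_mod_cast hup k
      rw [hR] at e2
      linarith
    rw [div_le_iff₀ (pow_pos (hc0 k) p), add_mul, ← mul_pow, add_mul, one_mul, one_div,
      inv_mul_cancel₀ (hc0 k).ne']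
    refine e1.trans ?_
    have e3 : (c k : ℝ) ≤ (c k : ℝ)⁻¹ * (c k : ℝ) ^ p := by
      obtain ⟨j, rfl⟩ : ∃ j, p = j + 2 := ⟨p - 2, by have := hp.two_le; omega⟩
      have e4 : (c k : ℝ)⁻¹ * (c k : ℝ) ^ (j + 2) = (c k : ℝ) * (c k : ℝ) ^ j := by
        have := (hc0 k).ne'
        rw [pow_succ, pow_succ]
        field_simp
      rw [e4]
      have e5 : (1 : ℝ) ≤ (c k : ℝ) ^ j := by
        refine one_le_pow₀ ?_
        have := hpos k
        exact_mod_cast (by omega : 1 ≤ c k)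
      nlinarith [hc0 k]
    linarith
  rw [tendsto_order]
  constructor
  · intro t ht
    obtain ⟨K, hK⟩ := exists_nat_gt (max 2 (1 / (1 - t)))
    have hK2 : 2 ≤ K := by
      have : (2 : ℝ) < K := (le_max_left _ _).trans_lt hK
      exact_mod_cast this.le
    have hKt : 1 / (1 - t) < K := (le_max_right _ _).trans_lt hK
    have hK0 : (0 : ℝ) < K := by
      have : (0 : ℕ) < K := by omega
      exact_mod_cast this
    have hKt' : t < 1 - 1 / K := by
      rw [div_lt_iff₀ (by linarith)] at hKt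
      have e1 : t * K < K - 1 := by nlinarith
      rw [← sub_pos] at e1 ⊢
      have e2 : 1 - 1 / (K : ℝ) - t = (K - 1 - t * K) / K := by field_simp
      rw [e2]
      exact div_pos e1 hK0
    filter_upwards [hlow K hK2] with k hk
    refine hKt'.trans_le ?_
    rw [le_div_iff₀ (pow_pos (hc0 k) p)]
    have e1 : ((K - 1 : ℕ) : ℝ) * (Rp p (c k) : ℕ) ≤ K * c (k + 1) := by exact_mod_cast hk
    rw [Nat.cast_sub (by omega), Nat.cast_one, hR] at e1
    have e2 : (c k : ℝ) ^ p ≤ ((c k : ℝ) + 1) ^ p - 1 := by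
      have e3 : (c k) ^ p + 1 ≤ (c k + 1) ^ p := by
        have := Nat.pow_lt_pow_left (show c k < c k + 1 by omega) hp.ne_zero
        omega
      have e4 : ((c k : ℝ)) ^ p + 1 ≤ ((c k : ℝ) + 1) ^ p := by exact_mod_cast e3
      linarith
    have hK1 : (0 : ℝ) ≤ K - 1 := by
      have : (1 : ℝ) ≤ K := by exact_mod_cast (by omega : 1 ≤ K)
      linarith
    have e5 : ((K : ℝ) - 1) * (c k : ℝ) ^ p ≤ K * c (k + 1) := (mul_le_mul_of_nonneg_left e2 hK1).trans e1
    have e6 : (1 - 1 / (K : ℝ)) * (c k : ℝ) ^ p = (((K : ℝ) - 1) * (c k : ℝ) ^ p) / K := by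
      field_simp
    rw [e6, div_le_iff₀ hK0]
    linarith
  · intro t ht
    filter_upwards [h1.eventually (eventually_lt_nhds ht)] with k hk
    exact (hle k).trans_lt hk

end Grow

/-- **the growth of the zeros in the model** -/
theorem grow_main {p : ℕ} (hp : p.Prime) {Ω : Type} [MeasurableSpace Ω] (P : Measure Ω) (X : ℕ → ℕ → Ω → ℕ)
    (hX : Model (fun b => (b ^ p).factorial) P X) (a σ : Ω → ℕ → ℕ)
    (hrun : ∀ ω, IsRun p (fun s b => X s b ω) (a ω) (σ ω)) :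
    ∀ᵐ ω ∂P, ∃ θ : ℝ, 1 < θ ∧ ∃ z : ℕ → ℕ, StrictMono z ∧ (∀ n, (∃ k, z k = n) ↔ 1 ≤ n ∧ a ω n = 0) ∧
      Tendsto (fun k => (z k : ℝ) / θ ^ (p ^ k)) atTop (𝓝 1) := by
  have hall : ∀ᵐ ω ∂P, ∀ K : ℕ, 2 ≤ K → ∀ᶠ k : ℕ in atTop,
      (K - 1) * Rp p (ch (T2H19.GR.hp p) (Rp p) (fun s b => X s b ω) 2 k) ≤
      K * ch (T2H19.GR.hp p) (Rp p) (fun s b => X s b ω) 2 (k + 1) := by
    rw [ae_all_iff]
    intro K
    by_cases hK : 2 ≤ K
    · filter_upwards [Grow.grow_ae hp hX K hK] with ω hω _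
      exact hω
    · filter_upwards with ω h
      exact absurd h hK
  filter_upwards [hall] with ω hω
  obtain ⟨hmono, hzero, hsig⟩ := Run.run_chain (T_CHN T_ZT) hp.two_le (hrun ω)
  set c : ℕ → ℕ := ch (T2H19.GR.hp p) (Rp p) (fun s b => X s b ω) 2 with hc
  have hz2 : ∀ k, 2 ≤ c k := by
    intro k
    have h3 : c 0 ≤ c k := hmono.monotone (Nat.zero_le _)
    have h4 : c 0 = 2 := rfl
    omega
  have hcz : ∀ k, a ω (c k) = 0 := fun k => (hzero (c k) (hz2 k)).2 ⟨k, rfl⟩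
  have hrat := Grow.ratio hp c hmono.tendsto_atTop hz2 (fun k => by
    have h1 := (T_ZT.1 (fun b => T2H19.GR.hp p (X (c k) b ω)) (c k + 1) (Rp p (c k))).2.1
    exact h1) hω
  obtain ⟨θ, hθ, hlim⟩ := Mills.mills p hp.two_le c (fun k => by have := hz2 k; omega) hmono.tendsto_atTop hrat
  refine ⟨θ, hθ, c, hmono, fun n => ⟨?_, ?_⟩, hlim⟩
  · rintro ⟨k, rfl⟩
    have := hz2 k
    exact ⟨by omega, hcz k⟩
  · rintro ⟨h3, h4⟩
    have h5 : n ≠ 1 := by
      rintro rfl
      rw [(hrun ω).one] at h4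
      exact one_ne_zero h4
    exact (hzero n (by omega)).1 h4

end Pool.Agent.H531.GC
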