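import Pool.Graph.R_pool_sql_team_seeded_707910d6.T2H19.GR.Stm

/-! # One stage of the random model: the zero is at least `(1 - 1 / K)` times the initial value

This is the library file `T2H19/GR/T_SL.lean` (package SL) with a general constant `K ≥ 2` in place of `2`. -/

set_option autoImplicit false

namespace Pool.Agent.H531.GC

open MeasureTheory ProbabilityTheory Finset Pool.Agent.T2H19.GR

namespace Sl2

/-- the event of the package, as a predicate of the values -/
def QE (K : ℕ) (h : ℕ → ℕ) (G : ℕ → ℕ → Prop) (A n a : ℕ) (v : ℕ → ℕ) : Prop :=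
  G (zt (fun b => h (v b)) n a) (v (zt (fun b => h (v b)) n a)) ∧ (K - 1) * A ≤ K * zt (fun b => h (v b)) n a

lemma QE_congr (hZT : P_ZT) (K : ℕ) (h : ℕ → ℕ) (G : ℕ → ℕ → Prop) (A n a : ℕ) (v w : ℕ → ℕ)
    (hvw : ∀ i ≤ a + n, v i = w i) : QE K h G A n a v ↔ QE K h G A n a w := by
  have h1 : zt (fun b => h (v b)) n a = zt (fun b => h (w b)) n a :=
    hZT.2.1 _ _ n a (fun i hi => by simp only [hvw i hi])
  have h2 := (hZT.1 (fun b => h (w b)) n a).2.1
  unfold QE
  rw [h1, hvw _ h2]

lemma arith {F δ c ρ β e : ℝ} (hF0 : 0 ≤ F) (hδ : 0 ≤ δ) (hc : 0 ≤ c) (hρ : 0 ≤ ρ)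
    (h1 : δ + c ≤ ρ * F) (h2 : β ≤ 1 - ρ) (he : e = max 0 (β - c)) : β ≤ F + (1 - F - δ) * e := by
  rcases le_total 0 (β - c) with h | h
  · rw [max_eq_right h] at he
    rw [he]
    nlinarith [mul_nonneg hF0 (sub_nonneg.mpr h2), mul_nonneg hδ hc, mul_nonneg hF0 hc,
      mul_nonneg hδ (show (0 : ℝ) ≤ 1 - β by linarith)]
  · rw [max_eq_left h] at he
    rw [he, mul_zero, add_zero]
    by_cases hρ1 : ρ ≤ 1
    · nlinarith [mul_nonneg hF0 (sub_nonneg.mpr hρ1)]
    · push Not at hρ1
      linarith

end Sl2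

open Sl2 in
/-- one stage: the zero is at least `(1 - 1 / K) A` -/
theorem stage2 (hZT : P_ZT) (hDL : P_DL) (hGEN : P_GEN) (K : ℕ) (hK : 2 ≤ K)
    (Ω : Type) [MeasurableSpace Ω] (P : Measure Ω) (Y : ℕ → Ω → ℕ) (N h : ℕ → ℕ) (hP : IsProbabilityMeasure P)
    (hY : ∀ i, Measurable (Y i)) (hind : iIndepFun Y P) (hN : ∀ b ω, Y b ω < N b)
    (A B z : ℕ) (ρ θ : ℝ) (G : ℕ → ℕ → Prop) (hA : 0 < A) (hzA : 2 * z < A) (hsq : Nat.sqrt A ≤ z) (hρ : 0 ≤ ρ)
    (hθ0 : 0 ≤ θ) (_hθ1 : θ ≤ 1) (hG : ∀ b y, G b y → Free b (h y))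
    (hstep : ∀ a b, (K - 1) * A ≤ K * a → a ≤ A → a ≤ b → b ≤ B →
      P.real {ω | Dang z (Nat.sqrt A) a b (h (Y b ω))} + 2 * K * z / A ≤ ρ * P.real {ω | Free b (h (Y b ω))} ∧
      θ * P.real {ω | Free b (h (Y b ω))} ≤ P.real {ω | G b (Y b ω)}) :
    ∀ n a : ℕ, a ≤ A → a + n ≤ B → θ * (1 - ρ - K * (A - a) / A) ≤
      P.real {ω | G (zt (fun b => h (Y b ω)) n a) (Y (zt (fun b => h (Y b ω)) n a) ω) ∧
        (K - 1) * A ≤ K * zt (fun b => h (Y b ω)) n a} := by
  classical
  have hAr : (0 : ℝ) < A := by exact_mod_cast hA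
  have hKr : (2 : ℝ) ≤ K := by exact_mod_cast hK
  have hKm : ((K - 1 : ℕ) : ℝ) = (K : ℝ) - 1 := by
    rw [Nat.cast_sub (by omega)]
    norm_num
  have hmeas1 : ∀ (b : ℕ) (Q : ℕ → Prop), MeasurableSet {ω | Q (Y b ω)} := by
    intro b Q
    exact (hY b) (MeasurableSet.of_discrete (s := {y | Q y}))
  have hmeas2 : ∀ n a, MeasurableSet {ω | QE K h G A n a (fun i => Y i ω)} := by
    intro n a
    exact (hGEN Ω P ℕ Y hP hY hind (range (a + n + 1)) ∅ (disjoint_empty_right _)
      (QE K h G A n a) (fun _ => True)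
      (fun v w hvw => QE_congr hZT K h G A n a v w (fun i hi => hvw i (mem_range.mpr (by omega))))
      (fun v w _ => Iff.rfl)).1
  have main : ∀ a : ℕ, ∀ n : ℕ, a ≤ A → a + n ≤ B →
      θ * (1 - ρ - K * (A - a) / A) ≤ P.real {ω | QE K h G A n a (fun i => Y i ω)} := by
    intro a
    induction a using Nat.strong_induction_on with
    | _ a ih =>
    intro n haA haB
    by_cases h2a : K * a < (K - 1) * A
    · have h3 : (1 : ℝ) ≤ K * (A - a) / A := by
        rw [le_div_iff₀ hAr]
        have h3' : ((K * a : ℕ) : ℝ) < ((K - 1) * A : ℕ) := by exact_mod_cast h2a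
        rw [Nat.cast_mul, Nat.cast_mul, hKm] at h3'
        linarith
      have h4 : θ * (1 - ρ - K * (A - a) / A) ≤ 0 := by
        have : θ * (K * (A - a) / A - 1 + ρ) ≥ 0 := mul_nonneg hθ0 (by linarith)
        linarith
      exact h4.trans measureReal_nonneg
    push Not at h2a
    have h2a' : A ≤ 2 * a := by
      have e1 : K * A ≤ K * a + A := by
        have e2 : K * A = (K - 1) * A + A := by
          obtain ⟨k, rfl⟩ : ∃ k, K = k + 1 := ⟨K - 1, by omega⟩
          rw [Nat.add_sub_cancel]
          ring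
        omega
      by_contra hcon
      push Not at hcon
      have e3 : K * (2 * a + 1) ≤ K * A := Nat.mul_le_mul_left K (by omega)
      have e4 : K * (A - a) ≤ A := by
        rw [Nat.mul_sub]
        omega
      have e5 : 2 * (A - a) ≤ K * (A - a) := Nat.mul_le_mul_right _ hK
      omega
    obtain ⟨hs1, hs2⟩ := hstep a (a + n) h2a haA (Nat.le_add_right a n) haB
    obtain ⟨b, hb⟩ : ∃ b, b = a + n := ⟨_, rfl⟩
    rw [← hb] at hs1 hs2
    have hab : a ≤ b := by omega
    have hza : z < a := by omega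
    set F : ℝ := P.real {ω | Free b (h (Y b ω))} with hF
    set δ : ℝ := P.real {ω | Dang z (Nat.sqrt A) a b (h (Y b ω))} with hδ
    set β : ℝ := 1 - ρ - K * (A - a) / A with hβ
    set c : ℝ := 2 * K * z / A with hc
    obtain ⟨e, he⟩ : ∃ e, e = max 0 (β - c) := ⟨_, rfl⟩
    have he0 : 0 ≤ e := by rw [he]; exact le_max_left _ _
    have hF0 : 0 ≤ F := measureReal_nonneg
    have hδ0 : 0 ≤ δ := measureReal_nonneg
    have hc0 : 0 ≤ c := by rw [hc]; positivity
    have hβ1 : β ≤ 1 - ρ := by
      have : (a : ℝ) ≤ A := by exact_mod_cast haA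
      have h5 : 0 ≤ K * ((A : ℝ) - a) / A :=
        div_nonneg (mul_nonneg (by linarith) (by linarith)) hAr.le
      rw [hβ]; linarith
    -- the set of the good values
    set W : Finset ℕ := (range (N b)).filter
      (fun y => ¬ Free b (h y) ∧ ¬ Dang z (Nat.sqrt A) a b (h y)) with hW
    have hD : ∀ y ∈ W, P.real {ω | Y b ω = y} * (θ * e) ≤
        P.real {ω | Y b ω = y ∧ QE K h G A n a (fun i => Y i ω)} := by
      intro y hy
      rw [hW, mem_filter] at hy
      obtain ⟨_, hy1, hy2⟩ := hy
      obtain ⟨k, g, hk, hg2, hgz, hkg, hz⟩ := hDL A z a b (h y) haA hab hza hsq hy1 hy2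
      have hEq : {ω | Y b ω = y ∧ QE K h G A n a (fun i => Y i ω)} =
          {ω | Y b ω = y ∧ QE K h G A (n + k + 1) (a - k - g) (fun i => Y i ω)} := by
        ext ω
        constructor
        · rintro ⟨h1, h2⟩
          refine ⟨h1, ?_⟩
          have h3 := hz (fun b => h (Y b ω)) n hb.symm (by simp only [h1])
          unfold QE at h2 ⊢
          rw [← h3]
          exact h2
        · rintro ⟨h1, h2⟩
          refine ⟨h1, ?_⟩
          have h3 := hz (fun b => h (Y b ω)) n hb.symm (by simp only [h1])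
          unfold QE at h2 ⊢
          rw [h3]
          exact h2
      rw [hEq]
      have hind2 := (hGEN Ω P ℕ Y hP hY hind {b} (range b)
        (by rw [disjoint_singleton_left, mem_range]; exact lt_irrefl b)
        (fun v => v b = y) (QE K h G A (n + k + 1) (a - k - g))
        (fun v w hvw => by rw [hvw b (mem_singleton_self b)])
        (fun v w hvw => QE_congr hZT K h G A _ _ v w
          (fun i hi => hvw i (mem_range.mpr (by omega))))).2.2
      rw [hind2]
      apply mul_le_mul_of_nonneg_left _ measureReal_nonneg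
      have h6 := ih (a - k - g) (by omega) (n + k + 1) (by omega) (by omega)
      rw [he]
      rcases le_total 0 (β - c) with h7 | h7
      · rw [max_eq_right h7]
        refine le_trans (mul_le_mul_of_nonneg_left ?_ hθ0) h6
        rw [hβ, hc]
        have h8 : ((a - k - g : ℕ) : ℝ) = (a : ℝ) - k - g := by
          rw [Nat.cast_sub (by omega), Nat.cast_sub (by omega)]
        rw [h8]
        have h9 : (k : ℝ) ≤ z := by exact_mod_cast hk.le
        have h10 : (g : ℝ) ≤ z := by exact_mod_cast hgz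
        have h11 : K * ((A : ℝ) - (a - k - g)) / A = K * (A - a) / A + K * (k + g) / A := by
          field_simp
          ring
        have h12 : K * ((k : ℝ) + g) / A ≤ 2 * K * z / A := by
          apply div_le_div_of_nonneg_right _ hAr.le
          nlinarith
        rw [h11]
        linarith
      · rw [max_eq_left h7, mul_zero]
        exact measureReal_nonneg
    -- sum over the good values
    have hsum1 : P.real (⋃ y ∈ W, {ω | Y b ω = y}) = ∑ y ∈ W, P.real {ω | Y b ω = y} := by
      apply measureReal_biUnion_finset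
      · intro y _ y' _ hyy'
        simp only [Function.onFun]
        rw [Set.disjoint_left]
        rintro ω (h1 : Y b ω = y) (h2 : Y b ω = y')
        exact hyy' (h1.symm.trans h2)
      · intro y _
        exact hmeas1 b (fun u => u = y)
      · exact fun y _ => measure_ne_top _ _
    have hsum2 : P.real (⋃ y ∈ W, {ω | Y b ω = y ∧ QE K h G A n a (fun i => Y i ω)}) =
        ∑ y ∈ W, P.real {ω | Y b ω = y ∧ QE K h G A n a (fun i => Y i ω)} := by
      apply measureReal_biUnion_finset
      · intro y _ y' _ hyy'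
        simp only [Function.onFun]
        rw [Set.disjoint_left]
        rintro ω ⟨h1, _⟩ ⟨h2, _⟩
        exact hyy' (h1.symm.trans h2)
      · intro y _
        exact (hmeas1 b (fun u => u = y)).inter (hmeas2 n a)
      · exact fun y _ => measure_ne_top _ _
    have hcov : (1 : ℝ) ≤ P.real (⋃ y ∈ W, {ω | Y b ω = y}) + F + δ := by
      have h1 : (Set.univ : Set Ω) ⊆ ((⋃ y ∈ W, {ω | Y b ω = y}) ∪ {ω | Free b (h (Y b ω))}) ∪
          {ω | Dang z (Nat.sqrt A) a b (h (Y b ω))} := by
        intro ω _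
        by_cases h2 : Free b (h (Y b ω))
        · exact Or.inl (Or.inr h2)
        by_cases h3 : Dang z (Nat.sqrt A) a b (h (Y b ω))
        · exact Or.inr h3
        refine Or.inl (Or.inl ?_)
        rw [Set.mem_iUnion₂]
        refine ⟨Y b ω, ?_, rfl⟩
        rw [hW, mem_filter]
        exact ⟨mem_range.mpr (hN b ω), h2, h3⟩
      have h2 : (1 : ℝ) = P.real Set.univ := by simp
      rw [h2]
      refine (measureReal_mono h1).trans ?_
      refine (measureReal_union_le _ _).trans ?_
      have := measureReal_union_le (μ := P) (⋃ y ∈ W, {ω | Y b ω = y}) {ω | Free b (h (Y b ω))}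
      linarith
    have hE : P.real {ω | G b (Y b ω)} +
        P.real (⋃ y ∈ W, {ω | Y b ω = y ∧ QE K h G A n a (fun i => Y i ω)}) ≤
        P.real {ω | QE K h G A n a (fun i => Y i ω)} := by
      rw [← measureReal_union ?_ ?_ (measure_ne_top _ _) (measure_ne_top _ _)]
      · refine measureReal_mono ?_ (measure_ne_top _ _)
        rintro ω (h1 | h1)
        · have h2 : Free b (h (Y b ω)) := hG b _ h1
          have h3 : zt (fun b => h (Y b ω)) n a = b := by
            rw [hb]
            apply hZT.2.2.2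
            intro l hl hla
            rw [← hb]
            exact h2 l hl (by omega)
          change QE K h G A n a (fun i => Y i ω)
          unfold QE
          rw [h3]
          exact ⟨h1, h2a.trans (Nat.mul_le_mul_left K (by omega))⟩
        · rw [Set.mem_iUnion₂] at h1
          obtain ⟨y, _, _, h2⟩ := h1
          exact h2
      · rw [Set.disjoint_left]
        intro ω (h1 : G b (Y b ω)) h2
        rw [Set.mem_iUnion₂] at h2
        obtain ⟨y, hy, h3, _⟩ := h2
        rw [hW, mem_filter] at hy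
        apply hy.2.1
        rw [← h3]
        exact hG b _ h1
      · apply Finset.measurableSet_biUnion
        intro y _
        exact (hmeas1 b (fun u => u = y)).inter (hmeas2 n a)
    have hfin : θ * F + (1 - F - δ) * (θ * e) ≤ P.real {ω | QE K h G A n a (fun i => Y i ω)} := by
      have h1 : (1 - F - δ) * (θ * e) ≤ ∑ y ∈ W, P.real {ω | Y b ω = y ∧ QE K h G A n a (fun i => Y i ω)} := by
        calc (1 - F - δ) * (θ * e) ≤ (P.real (⋃ y ∈ W, {ω | Y b ω = y})) * (θ * e) := by
              apply mul_le_mul_of_nonneg_right _ (mul_nonneg hθ0 he0)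
              linarith
          _ = ∑ y ∈ W, P.real {ω | Y b ω = y} * (θ * e) := by rw [hsum1, sum_mul]
          _ ≤ _ := sum_le_sum hD
      rw [← hsum2] at h1
      linarith
    have har := arith hF0 hδ0 hc0 hρ hs1 hβ1 he
    calc θ * β ≤ θ * (F + (1 - F - δ) * e) := mul_le_mul_of_nonneg_left har hθ0
      _ = θ * F + (1 - F - δ) * (θ * e) := by ring
      _ ≤ _ := hfin
  intro n a haA haB
  exact main a n haA haB

end Pool.Agent.H531.GC
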